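import Mathlib
import Pool.Agent.Lib_helper62.Har.Rigid

/-!
Rigidity of integer sequences near a geometric progression, in sup form.
-/

set_option autoImplicit false

namespace Pool.Agent.HDV

open Har Polynomial

/-- An integer sequence whose distance to `lam * α ^ n` is at most `E` for all `n`, where
`|lam| ≤ exp M` and `M * E ^ 2` is small, satisfies a monic linear recurrence. -/
theorem base (α : ℝ) (hα : 1 < α) : ∃ c : ℝ, 0 < c ∧ ∀ (lam E M : ℝ) (b : ℕ → ℤ), 1 ≤ M →
    |lam| ≤ Real.exp M → (∀ n, |(b n : ℝ) - lam * α ^ n| ≤ E) → M * E ^ 2 ≤ c →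
    ∃ P : ℤ[X], P.Monic ∧ ∀ n, act P b n = 0 := by
  refine ⟨1 / (32 * (1000 * (1 + α) ^ 4)), by positivity, ?_⟩
  intro lam E M b hM hlam hE hc
  have hE0 : 0 ≤ E := (abs_nonneg _).trans (hE 0)
  set T : ℕ := ⌈M⌉₊ with hT
  have hT1 : 1 ≤ T := Nat.one_le_ceil_iff.mpr (by linarith)
  have hMT : M ≤ T := Nat.le_ceil M
  have hTM : (T : ℝ) ≤ 2 * M := by
    have := Nat.ceil_lt_add_one (by linarith : 0 ≤ M)
    linarith
  apply rigid α α lam hα le_rfl T hT1 (hlam.trans (Real.exp_le_exp.mpr hMT)) b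
  intro m
  calc ∑ k ∈ Finset.range (16 * T), ((b (m + k) : ℝ) - lam * α ^ (m + k)) ^ 2
      ≤ ∑ _k ∈ Finset.range (16 * T), E ^ 2 := by
        apply Finset.sum_le_sum
        intro k _
        rw [← sq_abs]
        exact pow_le_pow_left₀ (abs_nonneg _) (hE (m + k)) 2
    _ = 16 * T * E ^ 2 := by
        rw [Finset.sum_const, Finset.card_range, nsmul_eq_mul]
        push_cast
        ring
    _ ≤ 32 * (M * E ^ 2) := by nlinarith [sq_nonneg E]
    _ ≤ 32 * (1 / (32 * (1000 * (1 + α) ^ 4))) := by linarith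
    _ = 1 / (1000 * (1 + α) ^ 4) := by field_simp

end Pool.Agent.HDV
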