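import Mathlib
import Pool.Agent.Lib_helper62.Har.Rigid
import Pool.Agent.Lib_helper62.Har.Window

/-!
Fatou's lemma and the conjugates of `α`.
-/

set_option autoImplicit false

namespace Pool.Agent.HDV

open Har Polynomial Filter Topology Matrix

/-- `α` is an algebraic integer all of whose other conjugates have modulus at most `1`
(for `|α| > 1`: `|α|` is a Pisot or a Salem number). -/
def PisotOrSalem (α : ℝ) : Prop :=
  IsIntegral ℤ α ∧ ∀ β : ℂ, aeval β (minpoly ℚ α) = 0 → β ≠ (α : ℂ) → ‖β‖ ≤ 1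

theorem act_castZQ (P : ℤ[X]) (a : ℕ → ℤ) (n : ℕ) :
    act (P.map (Int.castRingHom ℚ)) (fun k => (a k : ℚ)) n = ((act P a n : ℤ) : ℚ) := by
  have h : (P.map (Int.castRingHom ℚ)).natDegree = P.natDegree :=
    natDegree_map_eq_of_injective (RingHom.injective_int _) P
  rw [act_apply, act_apply, h]
  push_cast
  apply Finset.sum_congr rfl
  intro i _
  rw [coeff_map]
  rfl

theorem act_castZR (P : ℤ[X]) (a : ℕ → ℤ) (n : ℕ) :
    act (P.map (Int.castRingHom ℝ)) (fun k => (a k : ℝ)) n = ((act P a n : ℤ) : ℝ) := by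
  have h : (P.map (Int.castRingHom ℝ)).natDegree = P.natDegree :=
    natDegree_map_eq_of_injective (RingHom.injective_int _) P
  rw [act_apply, act_apply, h]
  push_cast
  apply Finset.sum_congr rfl
  intro i _
  rw [coeff_map]
  rfl

theorem act_castQC (P : ℚ[X]) (b : ℕ → ℚ) (n : ℕ) :
    act (P.map (algebraMap ℚ ℂ)) (fun k => (b k : ℂ)) n = ((act P b n : ℚ) : ℂ) := by
  have h : (P.map (algebraMap ℚ ℂ)).natDegree = P.natDegree :=
    natDegree_map_eq_of_injective (algebraMap ℚ ℂ).injective P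
  rw [act_apply, act_apply, h]
  push_cast
  apply Finset.sum_congr rfl
  intro i _
  rw [coeff_map]
  rfl

/-- A recurrence of minimal order and its invertible Hankel matrix. -/
theorem exists_minimal (b : ℕ → ℚ)
    (hrec : ∃ R : ℚ[X], R ≠ 0 ∧ ∀ᶠ n in atTop, act R b n = 0) :
    ∃ (R : ℚ[X]) (n₁ : ℕ), R.Monic ∧ (∀ n, n₁ ≤ n → act R b n = 0) ∧
      (hank b n₁ R.natDegree).det ≠ 0 := by
  classical
  have hex : ∃ d : ℕ, ∃ R : ℚ[X], R.Monic ∧ R.natDegree = d ∧ ∀ᶠ n in atTop, act R b n = 0 := by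
    obtain ⟨R, hR, hRa⟩ := hrec
    refine ⟨_, R * C R.leadingCoeff⁻¹, monic_mul_leadingCoeff_inv hR, rfl, ?_⟩
    filter_upwards [hRa] with n hn
    rw [mul_comm, act_mul, act_C, hn, mul_zero]
  set d := Nat.find hex with hd
  obtain ⟨R, hR, hRd, hRa⟩ := Nat.find_spec hex
  have hmin : ∀ V : ℚ[X], V ≠ 0 → (∀ᶠ n in atTop, act V b n = 0) → d ≤ V.natDegree := by
    intro V hV hVa
    apply Nat.find_min' hex
    refine ⟨V * C V.leadingCoeff⁻¹, monic_mul_leadingCoeff_inv hV, ?_, ?_⟩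
    · rw [natDegree_mul_leadingCoeff_inv _ hV]
    · filter_upwards [hVa] with n hn
      rw [mul_comm, act_mul, act_C, hn, mul_zero]
  rw [← hd] at hRd
  obtain ⟨n₁, hn₁⟩ := eventually_atTop.mp hRa
  refine ⟨R, n₁, hR, hn₁, ?_⟩
  rw [hRd]
  intro h0
  obtain ⟨V, hV0, hVd, hVa⟩ := exists_act_zero b n₁ d h0
  have hVn : V.natDegree < d := (natDegree_lt_iff_degree_lt hV0).mpr hVd
  have hy : ∀ r, act V b (n₁ + r) = 0 := by
    intro r
    apply forward_zero R hR (act V b) n₁ (r + 1) (fun r hr => hVa r (by rwa [hRd] at hr)) ?_ r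
      (by omega)
    intro s _
    rw [act_comm]
    apply act_eq_zero_of
    intro i _
    exact hn₁ _ (by omega)
  have h1 : ∀ᶠ n in atTop, act V b n = 0 := by
    filter_upwards [eventually_ge_atTop n₁] with n hn
    obtain ⟨r, rfl⟩ := Nat.exists_eq_add_of_le hn
    exact hy r
  have := hmin V hV0 h1
  omega

/-- Sequences `w (n+1) = β w n` -/
theorem geo_of_act (β : ℂ) (w : ℕ → ℂ) (n₁ : ℕ) (h : ∀ n, n₁ ≤ n → act (X - C β) w n = 0) :
    ∀ j, w (n₁ + j) = β ^ j * w n₁ := by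
  intro j
  induction j with
  | zero => simp
  | succ j ih =>
      have h1 := h (n₁ + j) (by omega)
      rw [act_sub, Pi.sub_apply, act_X, act_C, ih] at h1
      have h2 : w (n₁ + j + 1) = β * (β ^ j * w n₁) := by linear_combination h1
      rw [← add_assoc, h2, pow_succ]
      ring

/-- Fatou's lemma with the conjugates: an integer sequence near `lam * α ^ n` which satisfies a
linear recurrence. -/
theorem ps_of_rec (α lam F : ℝ) (hα : 1 < α) (hlam : lam ≠ 0) (a : ℕ → ℤ)
    (hF : ∀ n, |(a n : ℝ) - lam * α ^ n| ≤ F)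
    (hrec : ∃ R : ℚ[X], R ≠ 0 ∧ ∀ᶠ n in atTop, act R (fun k => (a k : ℚ)) n = 0) :
    PisotOrSalem α := by
  set b : ℕ → ℚ := fun k => (a k : ℚ) with hb
  obtain ⟨R, n₁, hR, hn₁, hH⟩ := exists_minimal b hrec
  set d := R.natDegree with hd
  have hint : IsIntegral ℤ α := by
    have hHZ : (hank a n₁ d).det ≠ 0 := by
      intro h0
      apply hH
      rw [hb, hank_det_castQ, h0, Int.cast_zero]
    obtain ⟨P, hP, hPR⟩ := integral_of_window a n₁ d (d + (hank a n₁ d).det.natAbs) hHZ R hR rfl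
      (fun r _ => hn₁ _ (by omega)) (by omega) (by
        have h1 : d + (hank a n₁ d).det.natAbs + 1 - d = (hank a n₁ d).det.natAbs + 1 := by omega
        rw [h1, pow_succ]
        have := Nat.lt_two_pow_self (n := (hank a n₁ d).det.natAbs)
        omega)
    have hPa : ∀ n, act P (fun k => a (n₁ + k)) n = 0 := by
      intro n
      have h1 : act P a (n₁ + n) = 0 := by
        have h2 := hn₁ (n₁ + n) (by omega)
        rw [← hPR, hb, act_castZQ] at h2
        exact_mod_cast h2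
      rw [act_apply] at h1 ⊢
      rw [← h1]
      apply Finset.sum_congr rfl
      intro i _
      rw [add_assoc]
    refine root_of_act P hP (fun k => a (n₁ + k)) α (lam * α ^ n₁) hα
      (mul_ne_zero hlam (by positivity)) F ?_ hPa
    intro n
    have := hF (n₁ + n)
    rw [pow_add, ← mul_assoc] at this
    exact this
  refine ⟨hint, ?_⟩
  intro β hβ hne
  -- `R α = 0`
  set RC : ℂ[X] := R.map (algebraMap ℚ ℂ) with hRC
  have hRCm : RC.Monic := hR.map _
  have hRCd : RC.natDegree = d := hR.natDegree_map _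
  set bC : ℕ → ℂ := fun k => (b k : ℂ) with hbC
  have hactC : ∀ n, n₁ ≤ n → act RC bC n = 0 := by
    intro n hn
    rw [hRC, hbC, act_castQC, hn₁ n hn, Rat.cast_zero]
  have hbound : ∀ (V : ℂ[X]) (n : ℕ), ‖act V bC n - lam * V.eval (α : ℂ) * (α : ℂ) ^ n‖
      ≤ (∑ i ∈ Finset.range (V.natDegree + 1), ‖V.coeff i‖) * F := by
    intro V n
    have h1 : act V bC n - lam * V.eval (α : ℂ) * (α : ℂ) ^ n
        = ∑ i ∈ Finset.range (V.natDegree + 1),
          V.coeff i * (((a (n + i) : ℝ) - lam * α ^ (n + i) : ℝ) : ℂ) := by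
      rw [act_apply, eval_eq_sum_range, Finset.mul_sum, Finset.sum_mul, ← Finset.sum_sub_distrib]
      apply Finset.sum_congr rfl
      intro i _
      simp only [hbC, hb]
      push_cast
      rw [pow_add]
      ring
    rw [h1, Finset.sum_mul]
    refine (norm_sum_le _ _).trans (Finset.sum_le_sum fun i _ => ?_)
    rw [norm_mul, Complex.norm_real]
    exact mul_le_mul_of_nonneg_left (hF _) (norm_nonneg _)
  have hRα : RC.eval (α : ℂ) = 0 := by
    by_contra h0
    have h1 : 0 < |lam| * ‖RC.eval (α : ℂ)‖ := mul_pos (abs_pos.mpr hlam) (norm_pos_iff.mpr h0)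
    obtain ⟨n, hn⟩ := pow_unbounded_of_one_lt
      ((∑ i ∈ Finset.range (RC.natDegree + 1), ‖RC.coeff i‖) * F / (|lam| * ‖RC.eval (α : ℂ)‖)) hα
    rw [div_lt_iff₀ h1] at hn
    have h2 := hbound RC (n₁ + n)
    rw [hactC _ (by omega), zero_sub, norm_neg, norm_mul, norm_mul, norm_pow, Complex.norm_real,
      Complex.norm_real, Real.norm_eq_abs, Real.norm_eq_abs, abs_of_pos (by linarith : 0 < α)] at h2
    have h3 : α ^ n ≤ α ^ (n₁ + n) := pow_le_pow_right₀ hα.le (by omega)
    have h4 : α ^ n * (|lam| * ‖RC.eval (α : ℂ)‖) ≤ |lam| * ‖RC.eval (α : ℂ)‖ * α ^ (n₁ + n) := by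
      rw [mul_comm]
      exact mul_le_mul_of_nonneg_left h3 h1.le
    linarith
  -- `β` is a root of `R`
  have hdvd : minpoly ℚ α ∣ R := by
    apply minpoly.dvd
    have h1 : ((aeval α R : ℝ) : ℂ) = RC.eval (α : ℂ) := by
      rw [hRC, eval_map_algebraMap]
      exact (aeval_algebraMap_apply ℂ α R).symm
    have h2 : ((aeval α R : ℝ) : ℂ) = 0 := h1.trans hRα
    exact_mod_cast h2
  have hRβ : RC.eval β = 0 := by
    rw [hRC, eval_map_algebraMap]
    obtain ⟨T, hT⟩ := hdvd
    rw [hT, map_mul, hβ, zero_mul]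
  obtain ⟨S, hS⟩ := dvd_iff_isRoot.mpr (show RC.IsRoot β from hRβ)
  have hRC0 : RC ≠ 0 := hRCm.ne_zero
  have hS0 : S ≠ 0 := by
    rintro rfl
    rw [mul_zero] at hS
    exact hRC0 hS
  have hSd : S.degree < (d : WithBot ℕ) := by
    rw [← natDegree_lt_iff_degree_lt hS0, ← hRCd, hS, natDegree_mul (X_sub_C_ne_zero β) hS0,
      natDegree_X_sub_C]
    omega
  have hSα : S.eval (α : ℂ) = 0 := by
    rw [hS, eval_mul, eval_sub, eval_X, eval_C] at hRα
    exact (mul_eq_zero.mp hRα).resolve_left (sub_ne_zero.mpr (Ne.symm hne))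
  set w := act S bC with hw
  have hgeo := geo_of_act β w n₁ (by
    intro n hn
    rw [hw, ← act_mul, ← hS]
    exact hactC n hn)
  have hw0 : w n₁ ≠ 0 := by
    intro h0
    apply hS0
    have hHC : (hank bC n₁ d).det ≠ 0 := by
      have h2 := RingHom.map_det (algebraMap ℚ ℂ) (hank b n₁ d)
      have h1 : hank bC n₁ d = (algebraMap ℚ ℂ).mapMatrix (hank b n₁ d) := by
        ext i j; rfl
      rw [h1, ← h2]
      exact (_root_.map_ne_zero _).mpr hH
    apply eq_zero_of_act bC n₁ d hHC S hSd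
    intro r _
    have h1 := hgeo r
    rw [h0, mul_zero] at h1
    exact h1
  by_contra hcon
  push Not at hcon
  obtain ⟨j, hj⟩ := pow_unbounded_of_one_lt
    ((∑ i ∈ Finset.range (S.natDegree + 1), ‖S.coeff i‖) * F / ‖w n₁‖) hcon
  rw [div_lt_iff₀ (norm_pos_iff.mpr hw0)] at hj
  have h2 := hbound S (n₁ + j)
  rw [hSα, mul_zero, zero_mul, sub_zero, ← hw, hgeo j, norm_mul, norm_pow] at h2
  linarith

theorem ps_of_monic (P : ℤ[X]) (hP : P.Monic) (a : ℕ → ℤ) (α lam F : ℝ) (hα : 1 < α)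
    (hlam : lam ≠ 0) (hF : ∀ n, |(a n : ℝ) - lam * α ^ n| ≤ F) (h : ∀ n, act P a n = 0) :
    PisotOrSalem α :=
  ps_of_rec α lam F hα hlam a hF ⟨P.map (Int.castRingHom ℚ),
    (Polynomial.map_ne_zero_iff (RingHom.injective_int _)).mpr hP.ne_zero,
    Eventually.of_forall fun n => by rw [act_castZQ, h n, Int.cast_zero]⟩

/-- the sign reduction -/
theorem ps_of_abs (α : ℝ) (h : PisotOrSalem |α|) : PisotOrSalem α := by
  rcases abs_choice α with h1 | h1
  · rwa [h1] at h
  · rw [h1] at h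
    have hint : IsIntegral ℤ α := by
      have := h.1.neg
      rwa [neg_neg] at this
    refine ⟨hint, fun β hβ hne => ?_⟩
    have h2 : minpoly ℚ α ∣ (minpoly ℚ (-α)).comp (-X) := by
      apply minpoly.dvd
      rw [aeval_comp, map_neg, aeval_X]
      exact minpoly.aeval _ _
    obtain ⟨T, hT⟩ := h2
    have h3 : aeval (-β) (minpoly ℚ (-α)) = 0 := by
      have h4 : aeval β ((minpoly ℚ (-α)).comp (-X)) = 0 := by rw [hT, map_mul, hβ, zero_mul]
      rwa [aeval_comp, map_neg, aeval_X] at h4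
    have h4 := h.2 (-β) h3 (by
      intro h5
      apply hne
      have h6 : (((-α : ℝ)) : ℂ) = -(α : ℂ) := by push_cast; rfl
      rw [h6] at h5
      exact neg_injective h5)
    rwa [norm_neg] at h4

end Pool.Agent.HDV
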