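import Mathlib

/-!
Dirichlet's theorem on simultaneous approximation.
-/

set_option autoImplicit false

namespace Pool.Agent.HDV

/-- Dirichlet: `m` real numbers have simultaneous approximations with denominator `≤ Q ^ m` and
errors `≤ 1 / Q`. -/
theorem simul (m : ℕ) (θ : Fin m → ℝ) (Q : ℕ) (hQ : 0 < Q) :
    ∃ (q : ℕ) (p : Fin m → ℤ), 1 ≤ q ∧ q ≤ Q ^ m ∧ ∀ i, |q * θ i - p i| ≤ 1 / Q := by
  classical
  have hQ' : (0 : ℝ) < Q := by exact_mod_cast hQ
  -- box of j: floor of Q * fract (j * θ i)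
  let f : ℕ → (Fin m → ℤ) := fun j i => ⌊(Q : ℝ) * Int.fract ((j : ℝ) * θ i)⌋
  let S : Finset (Fin m → ℤ) := Fintype.piFinset fun _ => Finset.Ico (0 : ℤ) Q
  have hmaps : ∀ j ∈ Finset.range (Q ^ m + 1), f j ∈ S := by
    intro j _
    rw [Fintype.mem_piFinset]
    intro i
    rw [Finset.mem_Ico]
    constructor
    · exact Int.floor_nonneg.mpr (mul_nonneg hQ'.le (Int.fract_nonneg _))
    · rw [Int.floor_lt]
      have := Int.fract_lt_one ((j : ℝ) * θ i)
      have h2 : (Q : ℝ) * Int.fract ((j : ℝ) * θ i) < Q * 1 := mul_lt_mul_of_pos_left this hQ'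
      simpa using h2
  have hcard : S.card < (Finset.range (Q ^ m + 1)).card := by
    rw [Fintype.card_piFinset, Finset.card_range]
    simp
  obtain ⟨x, hx, y, hy, hxy, hf⟩ := Finset.exists_ne_map_eq_of_card_lt_of_maps_to hcard hmaps
  wlog hlt : x < y generalizing x y
  · exact this y hy x hx hxy.symm hf.symm (by omega)
  refine ⟨y - x, fun i => ⌊(y : ℝ) * θ i⌋ - ⌊(x : ℝ) * θ i⌋, by omega, ?_, ?_⟩
  · have : y < Q ^ m + 1 := Finset.mem_range.mp hy
    omega
  · intro i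
    have h1 := congrFun hf i
    simp only [f] at h1
    have h2 := Int.abs_sub_lt_one_of_floor_eq_floor h1
    have h3 : ((y - x : ℕ) : ℝ) * θ i - ((⌊(y : ℝ) * θ i⌋ - ⌊(x : ℝ) * θ i⌋ : ℤ) : ℝ)
        = Int.fract ((y : ℝ) * θ i) - Int.fract ((x : ℝ) * θ i) := by
      rw [Nat.cast_sub hlt.le, Int.fract, Int.fract]
      push_cast
      ring
    rw [h3, le_div_iff₀ hQ', abs_sub_comm]
    rw [← mul_sub, abs_mul, abs_of_pos hQ'] at h2
    rw [mul_comm]
    exact h2.le

end Pool.Agent.HDV
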