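import Mathlib
import Pool.Agent.HDV.Base
import Pool.Agent.HDV.Simul
import Pool.Agent.HDV.Conj

/-!
Pisot's theorem for linear forms in several integer sequences.
-/

set_option autoImplicit false

namespace Pool.Agent.HDV

open Har Polynomial Filter Topology

/-- Pivot version: the coefficient of the sequence `c` is `1`. -/
theorem lin_core (α μ : ℝ) (hα : 1 < α) (hμ : μ ≠ 0) (m : ℕ) (θ ξ : Fin m → ℝ)
    (c : ℕ → ℤ) (a : Fin m → ℕ → ℤ) (B : ℝ)
    (hB : ∀ i n, |(a i n : ℝ) - ξ i * α ^ n| ≤ B) (ρ : ℕ → ℝ)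
    (hρ : ∀ n, |(c n : ℝ) + ∑ i, θ i * a i n - μ * α ^ n| ≤ ρ n)
    (hlim : Tendsto (fun n : ℕ => Real.sqrt n ^ (m + 1) * ρ n) atTop (𝓝 0)) :
    PisotOrSalem α := by
  obtain ⟨c₀, hc₀, hbase⟩ := base α hα
  have hlog : 0 < Real.log α := Real.log_pos hα
  set B' : ℝ := |B| + 1 with hB'
  have hB'0 : 0 < B' := by positivity
  have hBB : B ≤ B' := by
    have := le_abs_self B
    linarith
  set Ξ : ℝ := ∑ i, |ξ i| with hΞ
  have hΞ0 : 0 ≤ Ξ := Finset.sum_nonneg fun i _ => abs_nonneg _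
  set D : ℝ := Real.log α + 1 with hD
  have hD0 : 0 < D := by positivity
  set κ : ℝ := Real.sqrt (c₀ / D) with hκ
  have hκ0 : 0 < κ := Real.sqrt_pos.mpr (by positivity)
  have hκ2 : D * κ ^ 2 = c₀ := by
    rw [hκ, Real.sq_sqrt (by positivity)]
    field_simp
  -- Q = ⌈K √N⌉
  set K : ℝ := 2 * (m + 1) * B' / κ with hK
  have hK0 : 0 < K := by positivity
  set η : ℝ := κ / (2 * (K + 1) ^ m) with hη
  have hη0 : 0 < η := by positivity
  have E1 : ∀ᶠ N : ℕ in atTop, ∀ n ≥ N, Real.sqrt n ^ (m + 1) * ρ n < η :=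
    eventually_forall_ge_atTop.mpr (hlim.eventually (gt_mem_nhds hη0))
  have E2 : ∀ᶠ N : ℕ in atTop, (K + 1) ^ m * |μ| * (N : ℝ) ^ m + Ξ ≤ Real.exp N := by
    have h1 : Tendsto (fun x : ℝ => x ^ m / Real.exp x) atTop (𝓝 0) :=
      Real.tendsto_pow_mul_exp_neg_atTop_nhds_zero m |>.congr fun x => by
        rw [Real.exp_neg]; rfl
    have h2 : Tendsto (fun N : ℕ => (N : ℝ) ^ m / Real.exp N) atTop (𝓝 0) :=
      h1.comp tendsto_natCast_atTop_atTop
    have h3 : Tendsto (fun N : ℕ => Real.exp (N : ℝ)) atTop atTop :=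
      Real.tendsto_exp_atTop.comp tendsto_natCast_atTop_atTop
    have h4 := (h2.const_mul ((K + 1) ^ m * |μ|))
    rw [mul_zero] at h4
    filter_upwards [h4.eventually (gt_mem_nhds (half_pos one_pos)),
      h3.eventually_ge_atTop (2 * Ξ)] with N hN1 hN2
    have he : 0 < Real.exp (N : ℝ) := Real.exp_pos _
    have h5 : (K + 1) ^ m * |μ| * (N : ℝ) ^ m < 1 / 2 * Real.exp N := by
      have : (K + 1) ^ m * |μ| * ((N : ℝ) ^ m / Real.exp N) * Real.exp N
          < 1 / 2 * Real.exp N := mul_lt_mul_of_pos_right hN1 he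
      calc (K + 1) ^ m * |μ| * (N : ℝ) ^ m
          = (K + 1) ^ m * |μ| * ((N : ℝ) ^ m / Real.exp N) * Real.exp N := by
            field_simp
        _ < _ := this
    linarith
  have E3 : ∀ᶠ N : ℕ in atTop, (Ξ + 1) / (K * |μ|) + 1 / K + 1 ≤ Real.sqrt N :=
    (Real.tendsto_sqrt_atTop.comp tendsto_natCast_atTop_atTop).eventually_ge_atTop _
  obtain ⟨N, h1, h2, h3, hN1⟩ := (E1.and (E2.and (E3.and (eventually_ge_atTop 1)))).exists
  have hμ0 : 0 < |μ| := abs_pos.mpr hμ
  have hNpos : (0 : ℝ) < N := by exact_mod_cast hN1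
  have hN1' : (1 : ℝ) ≤ N := by exact_mod_cast hN1
  set r : ℝ := Real.sqrt N with hr
  have hr0 : 0 < r := Real.sqrt_pos.mpr hNpos
  have hr2 : r * r = N := Real.mul_self_sqrt hNpos.le
  have hr1 : 1 ≤ r := by
    have h5 : 0 < (Ξ + 1) / (K * |μ|) := by positivity
    have h6 : 0 < 1 / K := by positivity
    linarith
  have hKr : 1 ≤ K * r := by
    have h5 : 0 < (Ξ + 1) / (K * |μ|) := by positivity
    have h6 : 1 / K < r := by linarith
    rw [div_lt_iff₀ hK0] at h6
    linarith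
  set Q : ℕ := ⌈K * r⌉₊ with hQ
  have hQlo : K * r ≤ Q := Nat.le_ceil _
  have hQup : (Q : ℝ) ≤ (K + 1) * r := by
    have := (Nat.ceil_lt_add_one (by positivity : 0 ≤ K * r)).le
    rw [← hQ] at this
    nlinarith
  have hQ0 : 0 < Q := Nat.ceil_pos.mpr (by positivity)
  have hQ0' : (0 : ℝ) < Q := by exact_mod_cast hQ0
  obtain ⟨q, p, hq1, hqQ, hp⟩ := simul m θ Q hQ0
  have hq1' : (1 : ℝ) ≤ q := by exact_mod_cast hq1
  have hqQ' : (q : ℝ) ≤ ((K + 1) * r) ^ m := by
    calc (q : ℝ) ≤ (Q : ℝ) ^ m := by exact_mod_cast hqQ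
      _ ≤ _ := by gcongr
  have hp' : ∀ i, |(p i : ℝ) - q * θ i| ≤ 1 / (K * r) := by
    intro i
    rw [abs_sub_comm]
    exact (hp i).trans (one_div_le_one_div_of_le (by positivity) hQlo)
  set lam₀ : ℝ := q * μ + ∑ i, ((p i : ℝ) - q * θ i) * ξ i with hlam₀
  have hsum : |∑ i, ((p i : ℝ) - q * θ i) * ξ i| ≤ 1 / (K * r) * Ξ := by
    refine (Finset.abs_sum_le_sum_abs _ _).trans ?_
    rw [hΞ, Finset.mul_sum]
    apply Finset.sum_le_sum
    intro i _
    rw [abs_mul]
    exact mul_le_mul_of_nonneg_right (hp' i) (abs_nonneg _)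
  have hsmall : 1 / (K * r) * Ξ < |μ| := by
    have h5 : (Ξ + 1) / (K * |μ|) < r := by
      have h6 : 0 < 1 / K := by positivity
      linarith
    rw [div_lt_iff₀ (by positivity)] at h5
    rw [one_div_mul_eq_div, div_lt_iff₀ (by positivity)]
    nlinarith
  have hlam₀ne : lam₀ ≠ 0 := by
    intro h0
    have h5 : q * μ = -∑ i, ((p i : ℝ) - q * θ i) * ξ i := by linarith
    have h6 : |q * μ| ≤ 1 / (K * r) * Ξ := by rw [h5, abs_neg]; exact hsum
    rw [abs_mul, abs_of_pos (by linarith : (0 : ℝ) < q)] at h6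
    nlinarith
  set lam : ℝ := lam₀ * α ^ N with hlam
  have hlam0 : lam ≠ 0 := mul_ne_zero hlam₀ne (by positivity)
  have hlamexp : |lam| ≤ Real.exp (N * D) := by
    have h5 : |lam₀| ≤ Real.exp N := by
      have h6 : |lam₀| ≤ q * |μ| + 1 / (K * r) * Ξ := by
        rw [hlam₀]
        refine (abs_add_le _ _).trans ?_
        rw [abs_mul, abs_of_pos (by linarith : (0 : ℝ) < q)]
        linarith
      have h7 : 1 / (K * r) * Ξ ≤ Ξ := by
        have h8 : 1 / (K * r) ≤ 1 := by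
          rw [div_le_one (by positivity)]
          exact hKr
        nlinarith
      have h9 : r ≤ N := by nlinarith
      have h10 : (q : ℝ) * |μ| ≤ (K + 1) ^ m * |μ| * (N : ℝ) ^ m := by
        calc (q : ℝ) * |μ| ≤ ((K + 1) * r) ^ m * |μ| := by gcongr
          _ = (K + 1) ^ m * |μ| * r ^ m := by rw [mul_pow]; ring
          _ ≤ (K + 1) ^ m * |μ| * (N : ℝ) ^ m := by gcongr
      linarith
    rw [hlam, abs_mul, abs_of_pos (by positivity : (0 : ℝ) < α ^ N)]
    have h11 : α ^ N = Real.exp (N * Real.log α) := by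
      rw [mul_comm, Real.exp_mul, Real.exp_log (by linarith), Real.rpow_natCast]
    calc |lam₀| * α ^ N ≤ Real.exp N * Real.exp (N * Real.log α) := by
          rw [h11]
          gcongr
      _ = Real.exp (N * D) := by
          rw [← Real.exp_add, hD]; ring_nf
  have herr : ∀ n, |((q * c (N + n) + ∑ i, p i * a i (N + n) : ℤ) : ℝ) - lam * α ^ n|
      ≤ κ / r := by
    intro n
    set Y := α ^ (N + n) with hY
    have hlY : lam * α ^ n = lam₀ * Y := by rw [hlam, hY, pow_add]; ring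
    set E : ℝ := (c (N + n) : ℝ) + ∑ i, θ i * a i (N + n) - μ * Y with hE
    have hE1 : |E| ≤ ρ (N + n) := hρ (N + n)
    have hmain : ((q * c (N + n) + ∑ i, p i * a i (N + n) : ℤ) : ℝ) - lam * α ^ n
        = q * E + ∑ i, ((p i : ℝ) - q * θ i) * (a i (N + n) - ξ i * Y) := by
      rw [hlY, hlam₀, hE]
      push_cast
      simp only [sub_mul, mul_sub, Finset.sum_sub_distrib, Finset.mul_sum, add_mul, mul_add,
        Finset.sum_mul, mul_assoc]
      ring
    rw [hmain]
    have hNn : r ≤ Real.sqrt ((N + n : ℕ) : ℝ) := by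
      rw [hr]
      apply Real.sqrt_le_sqrt
      exact_mod_cast Nat.le_add_right N n
    have hρ0 : 0 ≤ ρ (N + n) := (abs_nonneg _).trans hE1
    have hρ1 : ρ (N + n) ≤ η / r ^ (m + 1) := by
      rw [le_div_iff₀ (by positivity)]
      have h5 := (h1 (N + n) (by omega)).le
      have h6 : r ^ (m + 1) ≤ Real.sqrt ((N + n : ℕ) : ℝ) ^ (m + 1) :=
        pow_le_pow_left₀ hr0.le hNn _
      calc ρ (N + n) * r ^ (m + 1) ≤ ρ (N + n) * Real.sqrt ((N + n : ℕ) : ℝ) ^ (m + 1) := by
            gcongr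
        _ ≤ η := by rw [mul_comm]; exact h5
    have h5 : |(q : ℝ) * E| ≤ (κ / 2) / r := by
      rw [abs_mul, abs_of_pos (by linarith : (0 : ℝ) < q)]
      calc (q : ℝ) * |E| ≤ ((K + 1) * r) ^ m * (η / r ^ (m + 1)) := by
            gcongr
            exact hE1.trans hρ1
        _ = (κ / 2) / r := by
            rw [hη, mul_pow, pow_succ]
            field_simp
    have h6 : |∑ i, ((p i : ℝ) - q * θ i) * (a i (N + n) - ξ i * Y)| ≤ (κ / 2) / r := by
      refine (Finset.abs_sum_le_sum_abs _ _).trans ?_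
      calc ∑ i, |((p i : ℝ) - q * θ i) * (a i (N + n) - ξ i * Y)|
          ≤ ∑ _i : Fin m, 1 / (K * r) * B' := by
            apply Finset.sum_le_sum
            intro i _
            rw [abs_mul]
            exact mul_le_mul (hp' i) ((hB i (N + n)).trans hBB) (abs_nonneg _) (by positivity)
        _ = m * (1 / (K * r) * B') := by
            rw [Finset.sum_const, Finset.card_univ, Fintype.card_fin, nsmul_eq_mul]
        _ ≤ (m + 1) * (1 / (K * r) * B') := by
            have : 0 ≤ 1 / (K * r) * B' := by positivity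
            nlinarith
        _ = (κ / 2) / r := by
            rw [hK]
            field_simp
    calc |(q : ℝ) * E + ∑ i, ((p i : ℝ) - q * θ i) * (a i (N + n) - ξ i * Y)|
        ≤ |(q : ℝ) * E| + |∑ i, ((p i : ℝ) - q * θ i) * (a i (N + n) - ξ i * Y)| :=
          abs_add_le _ _
      _ ≤ (κ / 2) / r + (κ / 2) / r := add_le_add h5 h6
      _ = κ / r := by ring
  have hME : N * D * (κ / r) ^ 2 ≤ c₀ := by
    rw [← hκ2, div_pow, ← hr2]
    apply le_of_eq
    field_simp
  have hM1 : 1 ≤ N * D := by nlinarith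
  obtain ⟨P, hP, hPb⟩ := hbase lam (κ / r) (N * D)
    (fun n => q * c (N + n) + ∑ i, p i * a i (N + n)) hM1 hlamexp herr hME
  exact ps_of_monic P hP _ α lam (κ / r) hα hlam0 herr hPb

end Pool.Agent.HDV
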