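import Mathlib
import Pool.Agent.HDV.Lin

/-!
Duplication congruences.
-/

set_option autoImplicit false

namespace Pool.Agent.HDV

open Har Polynomial Filter Topology

/-- `t * a (2n) + Q (a n, …, a (n+k))`. -/
def dupl (k : ℕ) (q : Fin (k + 1) → Fin (k + 1) → ℤ) (t : ℤ) (a : ℕ → ℤ) (n : ℕ) : ℤ :=
  t * a (2 * n) + ∑ i, ∑ j, q i j * (a (n + i) * a (n + j))

section algebra

variable (k : ℕ) (q : Fin (k + 1) → Fin (k + 1) → ℤ) (t : ℤ) (α ξ : ℝ)

/-- `Q (1, α, …, α ^ k)` -/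
noncomputable def Qα : ℝ := ∑ i : Fin (k + 1), ∑ j : Fin (k + 1),
  (q i j : ℝ) * (α ^ (i : ℕ) * α ^ (j : ℕ))

/-- the partial derivatives of `Q` at `(1, α, …, α ^ k)` -/
noncomputable def Qj (j : Fin (k + 1)) : ℝ := ∑ i : Fin (k + 1),
  ((q i j : ℝ) + q j i) * α ^ (i : ℕ)

/-- the coefficients of the linear form -/
noncomputable def θj (j : Fin (k + 1)) : ℝ :=
  - Qj k q α j + if (j : ℕ) = 0 then (t / ξ + Qα k q α) else 0

theorem sum_Qj (e : Fin (k + 1) → ℝ) :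
    ∑ i, ∑ j, (q i j : ℝ) * (α ^ (i : ℕ) * e j + α ^ (j : ℕ) * e i)
      = ∑ j, Qj k q α j * e j := by
  have h1 : ∑ i, ∑ j, (q i j : ℝ) * (α ^ (i : ℕ) * e j + α ^ (j : ℕ) * e i)
      = ∑ i, ∑ j, (q i j : ℝ) * (α ^ (i : ℕ) * e j)
        + ∑ i, ∑ j, (q i j : ℝ) * (α ^ (j : ℕ) * e i) := by
    rw [← Finset.sum_add_distrib]
    apply Finset.sum_congr rfl
    intro i _
    rw [← Finset.sum_add_distrib]
    apply Finset.sum_congr rfl
    intro j _
    ring
  rw [h1, Finset.sum_comm, ← Finset.sum_add_distrib]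
  apply Finset.sum_congr rfl
  intro j _
  rw [← Finset.sum_add_distrib, Qj, Finset.sum_mul]
  apply Finset.sum_congr rfl
  intro i _
  ring

theorem sum_Qj_pow : ∑ j : Fin (k + 1), Qj k q α j * α ^ (j : ℕ) = 2 * Qα k q α := by
  rw [← sum_Qj k q α (fun j => α ^ (j : ℕ)), Qα, Finset.mul_sum]
  apply Finset.sum_congr rfl
  intro i _
  rw [Finset.mul_sum]
  apply Finset.sum_congr rfl
  intro j _
  ring

theorem sum_θj (f : Fin (k + 1) → ℝ) :
    ∑ j, θj k q t α ξ j * f j = - ∑ j, Qj k q α j * f j + (t / ξ + Qα k q α) * f 0 := by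
  have h1 : ∀ j : Fin (k + 1), θj k q t α ξ j * f j
      = - (Qj k q α j * f j) + (if (j : ℕ) = 0 then (t / ξ + Qα k q α) * f j else 0) := by
    intro j
    unfold θj
    split_ifs <;> ring
  rw [Finset.sum_congr rfl (fun j _ => h1 j), Finset.sum_add_distrib, Finset.sum_neg_distrib]
  congr 1
  rw [Fin.sum_univ_succ]
  simp

/-- The key identity. -/
theorem key (X f : ℝ) (e : Fin (k + 1) → ℝ) (hξ : ξ ≠ 0) :
    (t * (ξ * X ^ 2 - f) + ∑ i, ∑ j, (q i j : ℝ) *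
        ((ξ * α ^ (i : ℕ) * X - e i) * (ξ * α ^ (j : ℕ) * X - e j)))
      + (ξ * X - e 0) * (∑ j, θj k q t α ξ j * (ξ * α ^ (j : ℕ) * X - e j))
      - 2 * t * X * (ξ * X - e 0)
      = - t * f + ∑ i, ∑ j, (q i j : ℝ) * (e i * e j) - e 0 * (∑ j, Qj k q α j * e j)
        + (t / ξ + Qα k q α) * e 0 ^ 2 := by
  have h1 : ∑ i, ∑ j, (q i j : ℝ) *
        ((ξ * α ^ (i : ℕ) * X - e i) * (ξ * α ^ (j : ℕ) * X - e j))
      = ξ ^ 2 * X ^ 2 * Qα k q α - ξ * X * (∑ j, Qj k q α j * e j)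
        + ∑ i, ∑ j, (q i j : ℝ) * (e i * e j) := by
    rw [← sum_Qj, Qα, Finset.mul_sum, Finset.mul_sum, ← Finset.sum_sub_distrib,
      ← Finset.sum_add_distrib]
    apply Finset.sum_congr rfl
    intro i _
    rw [Finset.mul_sum, Finset.mul_sum, ← Finset.sum_sub_distrib, ← Finset.sum_add_distrib]
    apply Finset.sum_congr rfl
    intro j _
    ring
  have h2 : ∑ j, Qj k q α j * (ξ * α ^ (j : ℕ) * X - e j)
      = ξ * X * (2 * Qα k q α) - ∑ j, Qj k q α j * e j := by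
    rw [← sum_Qj_pow, Finset.mul_sum, ← Finset.sum_sub_distrib]
    apply Finset.sum_congr rfl
    intro j _
    ring
  rw [h1, sum_θj, h2]
  simp only [Fin.val_zero, pow_zero, mul_one]
  field_simp
  ring

end algebra

/-- `(t a (2n) + Q (a n, …)) / a n + ∑ θ_j a (n+j) = 2 t α ^ n + O (α ^ (-n))`. -/
theorem dup_bound (k : ℕ) (q : Fin (k + 1) → Fin (k + 1) → ℤ) (t : ℤ) (α ξ B : ℝ) (hα : 1 < α)
    (hξ : ξ ≠ 0) (a : ℕ → ℤ) (hB : ∀ n, |(a n : ℝ) - ξ * α ^ n| ≤ B) :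
    ∃ W : ℝ, 0 < W ∧ ∀ n, 2 * B + 1 ≤ |ξ| * α ^ n →
      |(dupl k q t a n : ℝ) / a n + ∑ j : Fin (k + 1), θj k q t α ξ j * a (n + j)
        - 2 * t * α ^ n| ≤ W / α ^ n := by
  have hB0 : 0 ≤ B := (abs_nonneg _).trans (hB 0)
  have hξ0 : 0 < |ξ| := abs_pos.mpr hξ
  set C : ℝ := |(t : ℝ)| * B + (∑ i, ∑ j, |(q i j : ℝ)| * (B * B)) + B * (∑ j, |Qj k q α j| * B)
    + |t / ξ + Qα k q α| * B ^ 2 + 1 with hC
  have hC0 : 0 < C := by
    have h1 : 0 ≤ ∑ i, ∑ j, |(q i j : ℝ)| * (B * B) :=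
      Finset.sum_nonneg fun i _ => Finset.sum_nonneg fun j _ => by positivity
    have h2 : 0 ≤ ∑ j, |Qj k q α j| * B := Finset.sum_nonneg fun j _ => by positivity
    positivity
  refine ⟨2 * C / |ξ|, by positivity, ?_⟩
  intro n hn
  set X := α ^ n with hX
  have hX0 : 0 < X := by positivity
  have hX2 : α ^ (2 * n) = X ^ 2 := by rw [hX, ← pow_mul, mul_comm]
  set e : Fin (k + 1) → ℝ := fun i => ξ * α ^ (i : ℕ) * X - a (n + i) with he
  set f : ℝ := ξ * X ^ 2 - a (2 * n) with hf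
  have hei : ∀ i, |e i| ≤ B := by
    intro i
    have h1 := hB (n + i)
    rw [abs_sub_comm] at h1
    have h2 : e i = ξ * α ^ (n + (i : ℕ)) - a (n + i) := by
      simp only [he]
      rw [pow_add]
      ring
    rw [h2]
    exact h1
  have hf1 : |f| ≤ B := by
    have h1 := hB (2 * n)
    rw [hX2, abs_sub_comm] at h1
    exact h1
  have ha : (a n : ℝ) = ξ * X - e 0 := by
    simp only [he, Fin.val_zero, pow_zero, mul_one, Nat.add_zero]
    ring
  have hA : |ξ| * X / 2 ≤ |(a n : ℝ)| := by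
    have h3 : |ξ * X| ≤ |(a n : ℝ)| + |e 0| := by
      have : ξ * X = a n + e 0 := by rw [ha]; ring
      rw [this]
      exact abs_add_le _ _
    rw [abs_mul, abs_of_pos hX0] at h3
    have := hei 0
    linarith
  have hA0 : 0 < |(a n : ℝ)| := lt_of_lt_of_le (by positivity) hA
  have ha0 : (a n : ℝ) ≠ 0 := abs_pos.mp hA0
  have hai : ∀ i : Fin (k + 1), (a (n + i) : ℝ) = ξ * α ^ (i : ℕ) * X - e i := by
    intro i
    simp only [he]
    ring
  have hS : (dupl k q t a n : ℝ) = t * (ξ * X ^ 2 - f) + ∑ i, ∑ j, (q i j : ℝ) *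
        ((ξ * α ^ (i : ℕ) * X - e i) * (ξ * α ^ (j : ℕ) * X - e j)) := by
    unfold dupl
    push_cast
    rw [hf]
    simp only [hai]
    ring
  have hkey := key k q t α ξ X f e hξ
  rw [← hS, ← ha] at hkey
  have h5 : (dupl k q t a n : ℝ) / a n + ∑ j : Fin (k + 1), θj k q t α ξ j * a (n + j)
        - 2 * t * X = (- t * f + ∑ i, ∑ j, (q i j : ℝ) * (e i * e j)
          - e 0 * (∑ j, Qj k q α j * e j) + (t / ξ + Qα k q α) * e 0 ^ 2) / a n := by
    rw [← hkey]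
    simp only [hai]
    generalize (∑ j : Fin (k + 1), θj k q t α ξ j * (ξ * α ^ (j : ℕ) * X - e j)) = U
    field_simp
  rw [h5, abs_div]
  have h6 : |- t * f + ∑ i, ∑ j, (q i j : ℝ) * (e i * e j)
          - e 0 * (∑ j, Qj k q α j * e j) + (t / ξ + Qα k q α) * e 0 ^ 2| ≤ C := by
    have g1 : |-(t : ℝ) * f| ≤ |(t : ℝ)| * B := by
      rw [abs_mul, abs_neg]
      gcongr
    have g2 : |∑ i, ∑ j, (q i j : ℝ) * (e i * e j)| ≤ ∑ i, ∑ j, |(q i j : ℝ)| * (B * B) := by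
      refine (Finset.abs_sum_le_sum_abs _ _).trans (Finset.sum_le_sum fun i _ => ?_)
      refine (Finset.abs_sum_le_sum_abs _ _).trans (Finset.sum_le_sum fun j _ => ?_)
      rw [abs_mul, abs_mul]
      have := hei i
      have := hei j
      gcongr
    have g3 : |e 0 * (∑ j, Qj k q α j * e j)| ≤ B * (∑ j, |Qj k q α j| * B) := by
      rw [abs_mul]
      have g4 : |∑ j, Qj k q α j * e j| ≤ ∑ j, |Qj k q α j| * B := by
        refine (Finset.abs_sum_le_sum_abs _ _).trans (Finset.sum_le_sum fun j _ => ?_)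
        rw [abs_mul]
        have := hei j
        gcongr
      have := hei 0
      gcongr
    have g5 : |(t / ξ + Qα k q α) * e 0 ^ 2| ≤ |t / ξ + Qα k q α| * B ^ 2 := by
      rw [abs_mul, abs_pow]
      have := hei 0
      gcongr
    calc _ ≤ |- (t : ℝ) * f + ∑ i, ∑ j, (q i j : ℝ) * (e i * e j)
          - e 0 * (∑ j, Qj k q α j * e j)| + |(t / ξ + Qα k q α) * e 0 ^ 2| := abs_add_le _ _
      _ ≤ (|- (t : ℝ) * f + ∑ i, ∑ j, (q i j : ℝ) * (e i * e j)|
          + |e 0 * (∑ j, Qj k q α j * e j)|) + |(t / ξ + Qα k q α) * e 0 ^ 2| := by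
          gcongr
          exact abs_sub _ _
      _ ≤ ((|- (t : ℝ) * f| + |∑ i, ∑ j, (q i j : ℝ) * (e i * e j)|)
          + |e 0 * (∑ j, Qj k q α j * e j)|) + |(t / ξ + Qα k q α) * e 0 ^ 2| := by
          gcongr
          exact abs_add_le _ _
      _ ≤ C := by rw [hC]; linarith
  calc _ / |(a n : ℝ)| ≤ C / (|ξ| * X / 2) := by
        gcongr
    _ = 2 * C / |ξ| / X := by field_simp

/-- Duplication congruences force `|α|` to be a Pisot or Salem number. -/
theorem dup_core (k : ℕ) (q : Fin (k + 1) → Fin (k + 1) → ℤ) (t : ℤ) (ht : t ≠ 0)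
    (α ξ B : ℝ) (hα : 1 < α) (hξ : ξ ≠ 0) (a : ℕ → ℤ)
    (hB : ∀ n, |(a n : ℝ) - ξ * α ^ n| ≤ B) (δ : ℕ → ℝ) (c : ℕ → ℤ)
    (hc : ∀ n, |(dupl k q t a n : ℝ) / a n - c n| ≤ δ n)
    (hδ : Tendsto (fun n : ℕ => Real.sqrt n ^ (k + 2) * δ n) atTop (𝓝 0)) :
    PisotOrSalem α := by
  have hξ0 : 0 < |ξ| := abs_pos.mpr hξ
  obtain ⟨W, hW, hbd⟩ := dup_bound k q t α ξ B hα hξ a hB
  refine lin_core α (2 * t) hα (by simpa using ht) (k + 1) (θj k q t α ξ)
    (fun i => ξ * α ^ (i : ℕ)) c (fun i n => a (n + i)) B ?_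
    (fun n => |(c n : ℝ) + ∑ j : Fin (k + 1), θj k q t α ξ j * a (n + j) - 2 * t * α ^ n|)
    (fun n => le_rfl) ?_
  · intro i n
    have := hB (n + i)
    rw [pow_add] at this
    rw [mul_assoc, mul_comm (α ^ (i : ℕ))]
    exact this
  · have hgeo : Tendsto (fun n : ℕ => Real.sqrt n ^ (k + 2) * (W / α ^ n)) atTop (𝓝 0) := by
      have h1 := tendsto_pow_const_mul_const_pow_of_abs_lt_one (k + 2) (r := 1 / α)
        (by rw [abs_of_pos (by positivity), div_lt_one (by linarith)]; exact hα)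
      have h2 := h1.const_mul W
      rw [mul_zero] at h2
      refine squeeze_zero' (Eventually.of_forall fun n => by positivity) ?_ h2
      filter_upwards [eventually_ge_atTop 1] with n hn
      have h3 : (1 : ℝ) ≤ n := by exact_mod_cast hn
      have h4 : Real.sqrt n ≤ n := by
        rw [Real.sqrt_le_left (by positivity)]
        nlinarith
      calc Real.sqrt n ^ (k + 2) * (W / α ^ n) ≤ (n : ℝ) ^ (k + 2) * (W / α ^ n) := by
            gcongr
        _ = W * ((n : ℝ) ^ (k + 2) * (1 / α) ^ n) := by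
            rw [div_pow, one_pow]; ring
    have hsum := hδ.add hgeo
    rw [add_zero] at hsum
    refine squeeze_zero' (Eventually.of_forall fun n => by positivity) ?_ hsum
    have h4 : ∀ᶠ n : ℕ in atTop, 2 * B + 1 ≤ |ξ| * α ^ n := by
      have h1 : Tendsto (fun n : ℕ => |ξ| * α ^ n) atTop atTop :=
        (tendsto_pow_atTop_atTop_of_one_lt hα).const_mul_atTop hξ0
      exact h1.eventually_ge_atTop _
    filter_upwards [h4] with n hn
    have h5 := hbd n hn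
    have h6 := hc n
    have h7 : |(c n : ℝ) + ∑ j : Fin (k + 1), θj k q t α ξ j * a (n + j) - 2 * t * α ^ n|
        ≤ δ n + W / α ^ n := by
      have h8 : (c n : ℝ) + ∑ j : Fin (k + 1), θj k q t α ξ j * a (n + j) - 2 * t * α ^ n
          = ((dupl k q t a n : ℝ) / a n + ∑ j : Fin (k + 1), θj k q t α ξ j * a (n + j)
            - 2 * t * α ^ n) - ((dupl k q t a n : ℝ) / a n - c n) := by ring
      rw [h8]
      refine (abs_sub _ _).trans ?_
      linarith
    calc Real.sqrt n ^ (k + 1 + 1) *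
          |(c n : ℝ) + ∑ j : Fin (k + 1), θj k q t α ξ j * a (n + j) - 2 * t * α ^ n|
        ≤ Real.sqrt n ^ (k + 2) * (δ n + W / α ^ n) := by
          gcongr
      _ = _ := by ring

end Pool.Agent.HDV
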