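import Mathlib
import Pool.Agent.HDV.Dup
import Pool.Agent.Lib_helper62.Har.Pisot

/-!
A linear recurrence gives an exact duplication formula.
-/

set_option autoImplicit false

namespace Pool.Agent.HDV

open Har Polynomial Filter Topology Matrix

/-- Reduction of the shift modulo a monic polynomial which annihilates the tail. -/
theorem reduce (R : ℚ[X]) (hR : R.Monic) (b : ℕ → ℚ) (n₁ : ℕ)
    (h : ∀ n, n₁ ≤ n → act R b n = 0) (hd : R ≠ 1) (s n : ℕ) (hn : n₁ ≤ n) :
    b (n + s) = ∑ j ∈ Finset.range R.natDegree, (X ^ s %ₘ R).coeff j * b (n + j) := by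
  have h1 : (X ^ s : ℚ[X]) = X ^ s %ₘ R + R * (X ^ s /ₘ R) := (modByMonic_add_div _ R).symm
  have h2 : act (X ^ s : ℚ[X]) b n = act (X ^ s %ₘ R) b n + act (R * (X ^ s /ₘ R)) b n := by
    rw [← Pi.add_apply, ← act_add, ← h1]
  rw [act_X_pow] at h2
  have h3 : act (R * (X ^ s /ₘ R)) b n = 0 := by
    rw [mul_comm, act_mul]
    apply act_eq_zero_of
    intro i _
    exact h _ (by omega)
  have h4 : (X ^ s %ₘ R).natDegree < R.natDegree := natDegree_modByMonic_lt _ hR hd
  rw [h2, h3, add_zero, act_apply_of_lt _ _ _ _ h4]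

/-- An integer sequence which eventually satisfies a linear recurrence and is not eventually zero
satisfies an exact duplication formula. -/
theorem exists_dup (a : ℕ → ℤ)
    (hrec : ∃ R : ℚ[X], R ≠ 0 ∧ ∀ᶠ n in atTop, act R (fun k => (a k : ℚ)) n = 0)
    (hne : ∃ᶠ n in atTop, a n ≠ 0) :
    ∃ (k : ℕ) (q : Fin (k + 1) → Fin (k + 1) → ℤ) (t : ℤ), t ≠ 0 ∧
      ∀ᶠ n in atTop, dupl k q t a n = 0 := by
  classical
  set b : ℕ → ℚ := fun k => (a k : ℚ) with hb
  obtain ⟨R, n₁, hR, hn₁, hH⟩ := exists_minimal b hrec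
  obtain ⟨d, hRd⟩ : ∃ d, R.natDegree = d := ⟨_, rfl⟩
  rw [hRd] at hH
  have hd0 : d ≠ 0 := by
    intro h0
    rw [h0] at hRd
    have hR1 : R = 1 := hR.natDegree_eq_zero.mp hRd
    rw [hR1] at hn₁
    obtain ⟨n, hn1, hn2⟩ := (hne.and_eventually (eventually_ge_atTop n₁)).exists
    have hn2' := hn₁ n hn2
    rw [act_one] at hn2'
    have hn3 : ((a n : ℤ) : ℚ) = 0 := hn2'
    exact hn1 (by exact_mod_cast hn3)
  have hRne1 : R ≠ 1 := by
    intro h0
    rw [h0, natDegree_one] at hRd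
    exact hd0 hRd.symm
  obtain ⟨k, hk⟩ := Nat.exists_eq_succ_of_ne_zero hd0
  have hred : ∀ s n : ℕ, n₁ ≤ n →
      b (n + s) = ∑ j : Fin (k + 1), (X ^ s %ₘ R).coeff j * b (n + j) := by
    intro s n hn
    rw [reduce R hR b n₁ hn₁ hRne1 s n hn, hRd, hk, Finset.sum_range]
  rw [hk] at hH
  set H : Matrix (Fin (k + 1)) (Fin (k + 1)) ℚ := hank b n₁ (k + 1) with hHdef
  set w : Fin (k + 1) → Fin (k + 1) → ℚ :=
    fun j l => ∑ i, H⁻¹ j i * (X ^ (n₁ + (i : ℕ)) %ₘ R).coeff l with hw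
  have hdup : ∀ n, n₁ ≤ n → b (2 * n) = ∑ j, ∑ l, w j l * (b (n + j) * b (n + l)) := by
    intro n hn
    set u : Fin (k + 1) → ℚ := fun j => (X ^ n %ₘ R).coeff j with hu
    have hHu : H *ᵥ u = fun i : Fin (k + 1) => b (n₁ + i + n) := by
      funext i
      rw [hred n (n₁ + i) (by omega)]
      simp only [Matrix.mulVec, dotProduct, H, hank, Matrix.of_apply, hu]
      apply Finset.sum_congr rfl
      intro j _
      ring
    have hu2 : u = H⁻¹ *ᵥ (fun i : Fin (k + 1) => b (n₁ + i + n)) := by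
      rw [← hHu, Matrix.mulVec_mulVec, Matrix.nonsing_inv_mul _ (isUnit_iff_ne_zero.mpr hH),
        Matrix.one_mulVec]
    have h1 : ∀ i : Fin (k + 1), b (n₁ + i + n)
        = ∑ l : Fin (k + 1), (X ^ (n₁ + (i : ℕ)) %ₘ R).coeff l * b (n + l) := by
      intro i
      rw [← hred (n₁ + i) n hn]
      congr 1
      ring
    have h2 : ∀ j, u j = ∑ l, w j l * b (n + l) := by
      intro j
      rw [hu2]
      simp only [Matrix.mulVec, dotProduct, h1, hw, Finset.mul_sum, Finset.sum_mul]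
      rw [Finset.sum_comm]
      apply Finset.sum_congr rfl
      intro l _
      apply Finset.sum_congr rfl
      intro i _
      ring
    rw [two_mul, hred n n hn]
    apply Finset.sum_congr rfl
    intro j _
    have h3 : (X ^ n %ₘ R).coeff (j : ℕ) = u j := rfl
    rw [h3, h2 j, Finset.sum_mul]
    apply Finset.sum_congr rfl
    intro l _
    ring
  -- common denominator
  set T : ℤ := ∏ j, ∏ l, ((w j l).den : ℤ) with hT
  have hT0 : T ≠ 0 := Finset.prod_ne_zero_iff.mpr fun j _ => Finset.prod_ne_zero_iff.mpr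
    fun l _ => by exact_mod_cast (w j l).den_nz
  have hz : ∀ j l, ∃ z : ℤ, (z : ℚ) = T * w j l := by
    intro j l
    have h1 : ((w j l).den : ℤ) ∣ T :=
      (Finset.dvd_prod_of_mem (fun l => ((w j l).den : ℤ)) (Finset.mem_univ l)).trans
        (Finset.dvd_prod_of_mem (fun j => ∏ l, ((w j l).den : ℤ)) (Finset.mem_univ j))
    obtain ⟨c, hc⟩ := h1
    refine ⟨(w j l).num * c, ?_⟩
    rw [hc]
    push_cast
    have h2 : ((w j l).den : ℚ) * w j l = (w j l).num := by
      rw [mul_comm]; exact Rat.mul_den_eq_num _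
    rw [← h2]
    ring
  choose z hz using hz
  refine ⟨k, fun j l => - z j l, T, hT0, ?_⟩
  filter_upwards [eventually_ge_atTop n₁] with n hn
  have h1 := hdup n hn
  have h2 : ((dupl k (fun j l => - z j l) T a n : ℤ) : ℚ) = 0 := by
    unfold dupl
    push_cast
    have h3 : (a (2 * n) : ℚ) = ∑ j : Fin (k + 1), ∑ l : Fin (k + 1),
        w j l * ((a (n + j) : ℚ) * (a (n + l) : ℚ)) := h1
    rw [h3, Finset.mul_sum, ← Finset.sum_add_distrib]
    apply Finset.sum_eq_zero
    intro j _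
    rw [Finset.mul_sum, ← Finset.sum_add_distrib]
    apply Finset.sum_eq_zero
    intro l _
    rw [hz j l]
    ring
  exact_mod_cast h2

end Pool.Agent.HDV
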