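import Mathlib
import Pool.Agent.HDV.Base

/-!
The quotients `a (2 n) / a n` of an integer sequence near a geometric progression.
-/

set_option autoImplicit false

namespace Pool.Agent.HDV

open Har Polynomial Filter Topology

/-- The quotient `a (2n) / a n` is `α ^ n + e n / ξ + O (α ^ (- n))`. -/
theorem quot_bound (α ξ B : ℝ) (hα : 1 < α) (hξ : ξ ≠ 0) (a : ℕ → ℤ)
    (hB : ∀ n, |(a n : ℝ) - ξ * α ^ n| ≤ B) :
    ∃ W : ℝ, 0 < W ∧ ∀ n, 2 * B + 1 ≤ |ξ| * α ^ n →
      |(a (2 * n) : ℝ) / a n - α ^ n - (ξ * α ^ n - a n) / ξ| ≤ W / α ^ n := by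
  have hB0 : 0 ≤ B := (abs_nonneg _).trans (hB 0)
  have hξ0 : 0 < |ξ| := abs_pos.mpr hξ
  refine ⟨2 * (B ^ 2 / |ξ| + B + 1) / |ξ|, by positivity, ?_⟩
  intro n hn
  set X := α ^ n with hX
  have hX0 : 0 < X := by positivity
  have h1 := hB n
  have h2 := hB (2 * n)
  have hX2 : α ^ (2 * n) = X ^ 2 := by rw [hX, ← pow_mul, mul_comm]
  rw [hX2] at h2
  rw [← hX] at h1
  set e := ξ * X - a n with he
  set f := ξ * X ^ 2 - a (2 * n) with hf
  have he1 : |e| ≤ B := by rw [he, abs_sub_comm]; exact h1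
  have hf1 : |f| ≤ B := by rw [hf, abs_sub_comm]; exact h2
  have hA : |ξ| * X / 2 ≤ |(a n : ℝ)| := by
    have h3 : |ξ * X| ≤ |(a n : ℝ)| + |e| := by
      have : ξ * X = a n + e := by rw [he]; ring
      rw [this]
      exact abs_add_le _ _
    rw [abs_mul, abs_of_pos hX0] at h3
    linarith
  have hA0 : 0 < |(a n : ℝ)| := lt_of_lt_of_le (by positivity) hA
  have ha0 : (a n : ℝ) ≠ 0 := abs_pos.mp hA0
  have key : (a (2 * n) : ℝ) / a n - X - e / ξ = (e ^ 2 / ξ - f) / a n := by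
    have h5 : (a n : ℝ) = ξ * X - e := by rw [he]; ring
    have h6 : (a (2 * n) : ℝ) = ξ * X ^ 2 - f := by rw [hf]; ring
    rw [h5] at ha0
    rw [h5, h6]
    field_simp
    ring
  rw [key, abs_div]
  have h7 : |e ^ 2 / ξ - f| ≤ B ^ 2 / |ξ| + B := by
    calc |e ^ 2 / ξ - f| ≤ |e ^ 2 / ξ| + |f| := abs_sub _ _
      _ = |e| ^ 2 / |ξ| + |f| := by rw [abs_div, abs_pow]
      _ ≤ B ^ 2 / |ξ| + B := by gcongr
  calc |e ^ 2 / ξ - f| / |(a n : ℝ)| ≤ (B ^ 2 / |ξ| + B + 1) / (|ξ| * X / 2) := by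
        gcongr
        linarith
    _ = _ := by field_simp

theorem root_of_act' (P : ℤ[X]) (hP : P.Monic) (a : ℕ → ℤ) (α ξ : ℝ) (hα : 1 < α) (hξ : ξ ≠ 0)
    (B : ℝ) (hB : ∀ n, |(a n : ℝ) - ξ * α ^ n| ≤ B) (h : ∀ n, act P a n = 0) :
    IsIntegral ℤ α := root_of_act P hP a α ξ hα hξ B hB h

/-- If `n * ‖a (2n) / a n‖ → 0` then `α` is an algebraic integer. -/
theorem div_core (α ξ B : ℝ) (hα : 1 < α) (hξ : ξ ≠ 0) (a : ℕ → ℤ)
    (hB : ∀ n, |(a n : ℝ) - ξ * α ^ n| ≤ B) (δ : ℕ → ℝ) (c : ℕ → ℤ)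
    (hc : ∀ n, |(a (2 * n) : ℝ) / a n - c n| ≤ δ n)
    (hδ : Tendsto (fun n : ℕ => n * δ n) atTop (𝓝 0)) : IsIntegral ℤ α := by
  have hB0 : 0 ≤ B := (abs_nonneg _).trans (hB 0)
  have hξ0 : 0 < |ξ| := abs_pos.mpr hξ
  obtain ⟨c₀, hc₀, hbase⟩ := base α hα
  obtain ⟨W, hW, hquot⟩ := quot_bound α ξ B hα hξ a hB
  have hlog : 0 < Real.log α := Real.log_pos hα
  set D : ℝ := Real.log α + 2 with hD
  have hD0 : 0 < D := by positivity
  set κ : ℝ := Real.sqrt (c₀ / D) with hκ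
  have hκ0 : 0 < κ := Real.sqrt_pos.mpr (by positivity)
  have hκ2 : D * κ ^ 2 = c₀ := by
    rw [hκ, Real.sq_sqrt (by positivity)]
    field_simp
  set K : ℝ := 2 * (B + 1) / (|ξ| * κ) with hK
  have hK0 : 0 < K := by positivity
  set η : ℝ := κ / (4 * ((K + 1) * |ξ| + 1)) with hη
  have hη0 : 0 < η := by positivity
  -- the conditions on N
  have E1 : ∀ᶠ N : ℕ in atTop, ∀ n ≥ N, n * δ n < η :=
    eventually_forall_ge_atTop.mpr (hδ.eventually (gt_mem_nhds hη0))
  have E2 : ∀ᶠ N : ℕ in atTop, (N : ℝ) * (W / α ^ N) < η := by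
    have h1 := tendsto_pow_const_mul_const_pow_of_abs_lt_one 1 (r := 1 / α)
      (by rw [abs_of_pos (by positivity), div_lt_one (by linarith)]; exact hα)
    have h2 := h1.const_mul W
    rw [mul_zero] at h2
    filter_upwards [h2.eventually (gt_mem_nhds hη0)] with N hN
    calc (N : ℝ) * (W / α ^ N) = W * ((N : ℝ) ^ 1 * (1 / α) ^ N) := by
          rw [div_pow, one_pow, pow_one]; ring
      _ < η := hN
  have E3 : ∀ᶠ N : ℕ in atTop, 2 * (K + 1) * |ξ| + 1 + 1 / (2 * |ξ| * K) ≤ Real.sqrt N :=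
    (Real.tendsto_sqrt_atTop.comp tendsto_natCast_atTop_atTop).eventually_ge_atTop _
  have E4 : ∀ᶠ N : ℕ in atTop, ∀ n ≥ N, 2 * B + 1 ≤ |ξ| * α ^ n := by
    apply eventually_forall_ge_atTop.mpr
    have h1 : Tendsto (fun n : ℕ => |ξ| * α ^ n) atTop atTop :=
      (tendsto_pow_atTop_atTop_of_one_lt hα).const_mul_atTop hξ0
    exact h1.eventually_ge_atTop _
  obtain ⟨N, h1, h2, h3, h4, hN1⟩ :=
    (E1.and (E2.and (E3.and (E4.and (eventually_ge_atTop 1))))).exists
  have hNpos : (0 : ℝ) < N := by exact_mod_cast hN1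
  set q : ℝ := Real.sqrt N with hq
  have hq0 : 0 < q := Real.sqrt_pos.mpr hNpos
  have hq2 : q * q = N := Real.mul_self_sqrt hNpos.le
  have hq1 : 1 ≤ q := by
    have : (0 : ℝ) < 1 / (2 * |ξ| * K) := by positivity
    nlinarith [mul_pos (add_pos hK0 one_pos) hξ0]
  set R : ℕ := ⌈K * q⌉₊ with hR
  have hRlo : K * q ≤ R := Nat.le_ceil _
  have hRup : (R : ℝ) ≤ K * q + 1 := (Nat.ceil_lt_add_one (by positivity)).le
  have hR0 : 0 < R := Nat.ceil_pos.mpr (by positivity)
  obtain ⟨s, r, hr0, hrR, hrs⟩ := Real.exists_int_int_abs_mul_sub_le ξ hR0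
  have hr0' : (1 : ℝ) ≤ r := by exact_mod_cast hr0
  have hrR' : (r : ℝ) ≤ R := by exact_mod_cast hrR
  have hR1 : (0 : ℝ) < (R : ℝ) + 1 := by positivity
  have hrs1 : |(r : ℝ) * ξ - s| ≤ 1 / (K * q) := by
    refine hrs.trans (one_div_le_one_div_of_le (by positivity) (by linarith))
  have hrs2 : |(r : ℝ) * ξ - s| ≤ 1 := by
    refine hrs.trans ?_
    rw [div_le_one hR1]
    have : (0 : ℝ) ≤ R := by positivity
    linarith
  have hsabs : |(s : ℝ)| ≤ q * ((K + 1) * |ξ| + 1) := by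
    have h5 : |(s : ℝ)| ≤ |(r : ℝ) * ξ| + |(r : ℝ) * ξ - s| := by
      have : (s : ℝ) = r * ξ - (r * ξ - s) := by ring
      calc |(s : ℝ)| = |r * ξ - (r * ξ - s)| := by rw [← this]
        _ ≤ _ := abs_sub _ _
    rw [abs_mul, abs_of_pos (by linarith : (0 : ℝ) < r)] at h5
    have h6 : (r : ℝ) ≤ q * (K + 1) := by nlinarith
    nlinarith [mul_le_mul_of_nonneg_right h6 hξ0.le]
  set lam : ℝ := (r * ξ + s) * α ^ N with hlam
  have hne : (r : ℝ) * ξ + s ≠ 0 := by
    intro h0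
    have h5 : (r : ℝ) * ξ - s = 2 * (r * ξ) := by linarith
    rw [h5, abs_mul, abs_mul, abs_of_pos (by linarith : (0 : ℝ) < r), abs_two] at hrs1
    have h6 : 2 * |ξ| ≤ 1 / (K * q) := by nlinarith
    have h7 : 1 / (2 * |ξ| * K) < q := by
      have : 0 < 2 * (K + 1) * |ξ| := by positivity
      linarith
    rw [div_lt_iff₀ (by positivity)] at h7
    rw [le_div_iff₀ (by positivity)] at h6
    nlinarith
  have hlam0 : lam ≠ 0 := mul_ne_zero hne (by positivity)
  have hlamexp : |lam| ≤ Real.exp (N * D) := by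
    have h5 : |(r : ℝ) * ξ + s| ≤ N := by
      have h6 : |(r : ℝ) * ξ + s| ≤ 2 * (r * |ξ|) + 1 := by
        have : (r : ℝ) * ξ + s = 2 * (r * ξ) - (r * ξ - s) := by ring
        rw [this]
        refine (abs_sub _ _).trans ?_
        rw [abs_mul, abs_mul, abs_of_pos (by linarith : (0 : ℝ) < r), abs_two]
        linarith
      have h7 : (r : ℝ) ≤ (K + 1) * q := by nlinarith
      have h8 : 2 * ((r : ℝ) * |ξ|) + 1 ≤ (2 * (K + 1) * |ξ| + 1) * q := by
        nlinarith [mul_le_mul_of_nonneg_right h7 hξ0.le]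
      have h9 : (2 * (K + 1) * |ξ| + 1) * q ≤ q * q := by
        apply mul_le_mul_of_nonneg_right _ hq0.le
        have : (0 : ℝ) < 1 / (2 * |ξ| * K) := by positivity
        linarith
      linarith
    rw [hlam, abs_mul, abs_of_pos (by positivity : (0 : ℝ) < α ^ N)]
    have h10 : (N : ℝ) ≤ Real.exp N := by
      have := Real.add_one_le_exp (N : ℝ)
      linarith
    have h11 : α ^ N = Real.exp (N * Real.log α) := by
      rw [mul_comm, Real.exp_mul, Real.exp_log (by linarith), Real.rpow_natCast]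
    calc |(r : ℝ) * ξ + s| * α ^ N ≤ Real.exp N * Real.exp (N * Real.log α) := by
          rw [h11]
          gcongr
          linarith
      _ = Real.exp (N * (Real.log α + 1)) := by
          rw [← Real.exp_add]; ring_nf
      _ ≤ Real.exp (N * D) := by
          apply Real.exp_le_exp.mpr
          apply mul_le_mul_of_nonneg_left _ hNpos.le
          rw [hD]; linarith
  have herr : ∀ n, |((r * a (N + n) + s * c (N + n) : ℤ) : ℝ) - lam * α ^ n| ≤ κ / q := by
    intro n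
    have hX0 : 0 < α ^ (N + n) := by positivity
    set Y := α ^ (N + n) with hY
    have hlY : lam * α ^ n = (r * ξ + s) * Y := by rw [hlam, hY, pow_add]; ring
    set e := ξ * Y - a (N + n) with he
    set w := (c (N + n) : ℝ) - Y - e / ξ with hw
    have he1 : |e| ≤ B := by rw [he, abs_sub_comm]; exact hB (N + n)
    have hquo := hquot (N + n) (h4 _ (by omega))
    rw [← hY, ← he] at hquo
    have hcc := hc (N + n)
    have hdel := h1 (N + n) (by omega)
    have hNn : (0 : ℝ) < ((N + n : ℕ) : ℝ) := by exact_mod_cast (by omega : 0 < N + n)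
    have hNle : (N : ℝ) ≤ ((N + n : ℕ) : ℝ) := by exact_mod_cast Nat.le_add_right N n
    have hd1 : δ (N + n) ≤ η / N := by
      rw [le_div_iff₀ hNpos]
      have hd0 : 0 ≤ δ (N + n) := (abs_nonneg _).trans hcc
      nlinarith
    have hw1 : |w| ≤ 2 * (η / N) := by
      have h5 : w = ((a (2 * (N + n)) : ℝ) / a (N + n) - Y - e / ξ)
          - ((a (2 * (N + n)) : ℝ) / a (N + n) - c (N + n)) := by rw [hw]; ring
      have h6 : W / Y ≤ η / N := by
        have h7 : W / Y ≤ W / α ^ N := by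
          apply div_le_div_of_nonneg_left hW.le (by positivity)
          rw [hY]
          exact pow_le_pow_right₀ hα.le (by omega)
        have h8 : W / α ^ N ≤ η / N := by
          rw [le_div_iff₀ hNpos]
          nlinarith
        exact h7.trans h8
      rw [h5]
      refine (abs_sub _ _).trans ?_
      linarith
    have hmain : ((r * a (N + n) + s * c (N + n) : ℤ) : ℝ) - lam * α ^ n
        = -(e / ξ) * (r * ξ - s) + s * w := by
      rw [hlY]
      have h5 : (a (N + n) : ℝ) = ξ * Y - e := by rw [he]; ring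
      have h6 : (c (N + n) : ℝ) = Y + e / ξ + w := by rw [hw]; ring
      push_cast
      rw [h5, h6]
      field_simp
      ring
    rw [hmain]
    have h5 : |-(e / ξ) * ((r : ℝ) * ξ - s)| ≤ (κ / 2) / q := by
      rw [abs_mul, abs_neg, abs_div]
      calc |e| / |ξ| * |(r : ℝ) * ξ - s| ≤ (B + 1) / |ξ| * (1 / (K * q)) := by
            gcongr
            linarith
        _ = (κ / 2) / q := by
            rw [hK]; field_simp
    have h6 : |(s : ℝ) * w| ≤ (κ / 2) / q := by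
      rw [abs_mul]
      calc |(s : ℝ)| * |w| ≤ (q * ((K + 1) * |ξ| + 1)) * (2 * (η / N)) := by
            gcongr
        _ = (κ / 2) / q := by
            rw [hη, ← hq2]
            field_simp
            ring
    calc |-(e / ξ) * ((r : ℝ) * ξ - s) + s * w|
        ≤ |-(e / ξ) * ((r : ℝ) * ξ - s)| + |(s : ℝ) * w| := abs_add_le _ _
      _ ≤ (κ / 2) / q + (κ / 2) / q := add_le_add h5 h6
      _ = κ / q := by ring
  have hME : N * D * (κ / q) ^ 2 ≤ c₀ := by
    rw [← hκ2, div_pow, ← hq2]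
    apply le_of_eq
    field_simp
  have hM1 : 1 ≤ N * D := by
    have : (1 : ℝ) ≤ N := by exact_mod_cast hN1
    nlinarith
  obtain ⟨P, hP, hPb⟩ := hbase lam (κ / q) (N * D)
    (fun n => r * a (N + n) + s * c (N + n)) hM1 hlamexp herr hME
  exact root_of_act P hP _ α lam hα hlam0 (κ / q) herr hPb

end Pool.Agent.HDV
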