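import Mathlib
import Pool.Agent.HDV.Base
import Pool.Agent.HDV.Conv

/-!
Recurrences modulo `m` lift to exact recurrences.
-/

set_option autoImplicit false

namespace Pool.Agent.HDV

open Har Polynomial Filter Topology

/-- The length of an integer polynomial. -/
def len (G : ℤ[X]) : ℤ := ∑ i ∈ Finset.range (G.natDegree + 1), |G.coeff i|

theorem len_pos (G : ℤ[X]) (hG : G ≠ 0) : 1 ≤ len G := by
  unfold len
  have h1 : |G.coeff G.natDegree| ≤ ∑ i ∈ Finset.range (G.natDegree + 1), |G.coeff i| :=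
    Finset.single_le_sum (f := fun i => |G.coeff i|) (fun i _ => abs_nonneg _)
      (Finset.mem_range.mpr (Nat.lt_succ_self _))
  have h2 : 1 ≤ |G.coeff G.natDegree| :=
    Int.one_le_abs (by rw [coeff_natDegree]; exact leadingCoeff_ne_zero.mpr hG)
  exact h2.trans h1

theorem act_abs_le (G : ℤ[X]) (y : ℕ → ℝ) (N n : ℕ) (E : ℝ) (hn : N ≤ n)
    (h : ∀ i, N ≤ i → |y i| ≤ E) :
    |act (G.map (Int.castRingHom ℝ)) y n| ≤ len G * E := by
  have hd : (G.map (Int.castRingHom ℝ)).natDegree = G.natDegree :=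
    natDegree_map_eq_of_injective (RingHom.injective_int _) G
  rw [act_apply, hd]
  unfold len
  push_cast
  rw [Finset.sum_mul]
  refine (Finset.abs_sum_le_sum_abs _ _).trans (Finset.sum_le_sum fun i _ => ?_)
  rw [coeff_map, abs_mul]
  have h1 : |(Int.castRingHom ℝ) (G.coeff i)| = |(G.coeff i : ℝ)| := rfl
  rw [h1]
  exact mul_le_mul_of_nonneg_left (h _ (by omega)) (abs_nonneg _)

theorem eval_abs_le (G : ℤ[X]) (α : ℝ) (hα : 1 ≤ |α|) :
    |(G.map (Int.castRingHom ℝ)).eval α| ≤ len G * |α| ^ G.natDegree := by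
  have hd : (G.map (Int.castRingHom ℝ)).natDegree = G.natDegree :=
    natDegree_map_eq_of_injective (RingHom.injective_int _) G
  rw [eval_eq_sum_range, hd]
  unfold len
  push_cast
  rw [Finset.sum_mul]
  refine (Finset.abs_sum_le_sum_abs _ _).trans (Finset.sum_le_sum fun i hi => ?_)
  rw [coeff_map, abs_mul, abs_pow]
  have h1 : |(Int.castRingHom ℝ) (G.coeff i)| = |(G.coeff i : ℝ)| := rfl
  rw [h1]
  apply mul_le_mul_of_nonneg_left _ (abs_nonneg _)
  exact pow_le_pow_right₀ hα (by simpa [Nat.lt_succ_iff] using hi)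

theorem act_geo (G : ℝ[X]) (ξ α : ℝ) (n : ℕ) :
    act G (fun n => ξ * α ^ n) n = ξ * G.eval α * α ^ n := by
  rw [act_apply, eval_eq_sum_range, Finset.mul_sum, Finset.sum_mul]
  apply Finset.sum_congr rfl
  intro i _
  rw [pow_add]; ring

theorem act_err (G : ℤ[X]) (a : ℕ → ℤ) (ξ α : ℝ) (n : ℕ) :
    ((act G a n : ℤ) : ℝ) - ξ * (G.map (Int.castRingHom ℝ)).eval α * α ^ n
      = act (G.map (Int.castRingHom ℝ)) (fun n => (a n : ℝ) - ξ * α ^ n) n := by
  have h2 : act (G.map (Int.castRingHom ℝ)) (fun n => (a n : ℝ) - ξ * α ^ n)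
      = act (G.map (Int.castRingHom ℝ)) (fun n => (a n : ℝ))
        - act (G.map (Int.castRingHom ℝ)) (fun n => ξ * α ^ n) := by
    unfold act
    rw [← map_sub]
    rfl
  rw [h2, Pi.sub_apply, act_castZR, act_geo]

/-- twist of a polynomial by a sign -/
theorem act_twist (P : ℤ[X]) (s : ℤ) (hs : s = 1 ∨ s = -1) (b : ℕ → ℤ)
    (h : ∀ n, act P (fun n => s ^ n * b n) n = 0) (n : ℕ) :
    act (P.comp (C s * X)) b n = 0 := by
  have hle : (P.comp (C s * X)).natDegree < P.natDegree + 1 := by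
    have h1 : (P.comp (C s * X)).natDegree ≤ P.natDegree * (C s * X : ℤ[X]).natDegree :=
      natDegree_comp_le
    have h2 : (C s * X : ℤ[X]).natDegree ≤ 1 := (natDegree_C_mul_le s X).trans natDegree_X_le
    nlinarith
  rw [act_apply_of_lt _ _ _ _ hle]
  have h3 := h n
  rw [act_apply] at h3
  have hss : s ^ n * s ^ n = 1 := by
    rw [← mul_pow]
    rcases hs with h | h <;> rw [h] <;> norm_num
  have h4 : s ^ n * ∑ i ∈ Finset.range (P.natDegree + 1), (P.comp (C s * X)).coeff i * b (n + i)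
      = ∑ i ∈ Finset.range (P.natDegree + 1), P.coeff i * (s ^ (n + i) * b (n + i)) := by
    rw [Finset.mul_sum]
    apply Finset.sum_congr rfl
    intro i _
    rw [comp_C_mul_X_coeff, pow_add]
    ring
  have h5 : s ^ n * ∑ i ∈ Finset.range (P.natDegree + 1),
      (P.comp (C s * X)).coeff i * b (n + i) = 0 := by rw [h4]; exact h3
  have hne : s ^ n ≠ 0 := by
    intro h0
    rw [h0] at hss
    norm_num at hss
  exact (mul_eq_zero.mp h5).resolve_left hne

theorem comp_ne_zero_of_sign (P : ℤ[X]) (hP : P ≠ 0) (s : ℤ) (hs : s = 1 ∨ s = -1) :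
    P.comp (C s * X) ≠ 0 := by
  intro h
  apply hP
  ext i
  have h1 := congrArg (fun Q : ℤ[X] => Q.coeff i) h
  simp only [comp_C_mul_X_coeff, coeff_zero] at h1
  have hne : s ^ i ≠ 0 := by
    apply pow_ne_zero
    rcases hs with h | h <;> rw [h] <;> norm_num
  rw [coeff_zero]
  exact (mul_eq_zero.mp h1).resolve_right hne

/-- **Lifting.** A recurrence modulo `m` with small coefficients lifts to an exact one. -/
theorem lift_core (α ξ : ℝ) (hα : 1 < |α|) (hξ : ξ ≠ 0) :
    ∃ κ : ℝ, 0 < κ ∧ ∀ (a : ℕ → ℤ) (E : ℝ) (N m : ℕ) (G : ℤ[X]), 1 ≤ m → G ≠ 0 →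
      len G ≤ m → (∀ n, N ≤ n → |(a n : ℝ) - ξ * α ^ n| ≤ E) →
      (∀ n, N ≤ n → (m : ℤ) ∣ act G a n) →
      (len G : ℝ) ^ 2 * E ^ 2 * (G.natDegree + N + 1) ≤ κ * m ^ 2 →
      PisotOrSalem α ∧ ∃ P : ℤ[X], P ≠ 0 ∧ ∀ n, N ≤ n → act P a n = 0 := by
  obtain ⟨s, hs, hsα⟩ : ∃ s : ℤ, (s = 1 ∨ s = -1) ∧ α = s * |α| := by
    rcases abs_choice α with h | h
    · exact ⟨1, Or.inl rfl, by rw [h]; simp⟩
    · exact ⟨-1, Or.inr rfl, by rw [h]; simp⟩
  set β := |α| with hβ
  obtain ⟨c₀, hc₀, hbase⟩ := base β hα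
  have hlog : 0 < Real.log β := Real.log_pos hα
  set D : ℝ := |ξ| + Real.log β + 1 with hD
  have hD0 : 0 < D := by positivity
  refine ⟨min (c₀ / D) (1 / 4), by positivity, ?_⟩
  intro a E N m G hm hG hGm hE hdvd hsmall
  have hE0 : 0 ≤ E := (abs_nonneg _).trans (hE N le_rfl)
  have hm0 : (0 : ℝ) < m := by exact_mod_cast hm
  have hL1 : (1 : ℝ) ≤ len G := by exact_mod_cast len_pos G hG
  have hLm : (len G : ℝ) ≤ m := by exact_mod_cast hGm
  set g : ℝ := (G.map (Int.castRingHom ℝ)).eval α with hg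
  set A : ℝ := G.natDegree + N + 1 with hA
  have hA1 : 1 ≤ A := by
    have h1 : (0 : ℝ) ≤ G.natDegree := by positivity
    have h2 : (0 : ℝ) ≤ N := by positivity
    rw [hA]; linarith
  set F : ℝ := len G * E / m with hF
  have hF0 : 0 ≤ F := by positivity
  have hF2 : A * F ^ 2 ≤ min (c₀ / D) (1 / 4) := by
    rw [hF, div_pow, mul_pow, mul_div_assoc', div_le_iff₀ (by positivity)]
    calc A * ((len G : ℝ) ^ 2 * E ^ 2) = (len G : ℝ) ^ 2 * E ^ 2 * A := by ring
      _ ≤ _ := hsmall
  have hF1 : F < 1 := by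
    have h1 : F ^ 2 ≤ 1 / 4 := by
      have h2 := hF2.trans (min_le_right _ _)
      nlinarith [sq_nonneg F]
    nlinarith
  -- the divided sequence
  choose! c hc using hdvd
  have hact : ∀ n, N ≤ n → |(c n : ℝ) - ξ * g / m * α ^ n| ≤ F := by
    intro n hn
    have h1 := act_abs_le G (fun n => (a n : ℝ) - ξ * α ^ n) N n E hn hE
    rw [← act_err, hc n hn] at h1
    have h2 : (c n : ℝ) - ξ * g / m * α ^ n
        = ((((m : ℤ) * c n : ℤ) : ℝ) - ξ * g * α ^ n) / m := by
      push_cast
      field_simp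
    rw [h2, abs_div, abs_of_pos hm0, hF]
    gcongr
  have hss : ∀ n : ℕ, (s : ℝ) ^ n * (s : ℝ) ^ n = 1 := by
    intro n
    rw [← mul_pow]
    rcases hs with h | h <;> rw [h] <;> norm_num
  have habs : ∀ n : ℕ, |(s : ℝ) ^ n| = 1 := by
    intro n
    rw [abs_pow]
    rcases hs with h | h <;> rw [h] <;> norm_num
  have hpow : ∀ n, α ^ n = (s : ℝ) ^ n * β ^ n := fun n => by rw [hsα, mul_pow]
  -- exact recurrence
  have hex : ∃ P : ℤ[X], P ≠ 0 ∧ ∀ n, N ≤ n → act P a n = 0 := by
    set lam : ℝ := ξ * g / m * α ^ N with hlam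
    set b : ℕ → ℤ := fun n => c (N + n) with hb
    have hlamexp : |lam| ≤ Real.exp (D * A) := by
      have h1 : |g| ≤ len G * β ^ G.natDegree := eval_abs_le G α hα.le
      have h2 : |lam| ≤ |ξ| * β ^ (G.natDegree + N) := by
        rw [hlam, abs_mul, abs_div, abs_mul, abs_of_pos hm0, abs_pow, ← hβ, pow_add]
        calc |ξ| * |g| / m * β ^ N ≤ |ξ| * (m * β ^ G.natDegree) / m * β ^ N := by
              gcongr
              exact h1.trans (by gcongr)
          _ = |ξ| * (β ^ G.natDegree * β ^ N) := by field_simp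
      have h3 : |ξ| ≤ Real.exp |ξ| := by
        have := Real.add_one_le_exp |ξ|
        linarith
      have h4 : β ^ (G.natDegree + N) = Real.exp ((G.natDegree + N) * Real.log β) := by
        rw [mul_comm, Real.exp_mul, Real.exp_log (by linarith)]
        rw [← Nat.cast_add, Real.rpow_natCast]
      calc |lam| ≤ |ξ| * β ^ (G.natDegree + N) := h2
        _ ≤ Real.exp |ξ| * Real.exp ((G.natDegree + N) * Real.log β) := by
            rw [h4]
            gcongr
        _ = Real.exp (|ξ| + (G.natDegree + N) * Real.log β) := by rw [Real.exp_add]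
        _ ≤ Real.exp (D * A) := by
            apply Real.exp_le_exp.mpr
            have h5 : (0 : ℝ) ≤ G.natDegree + N := by positivity
            have h6 : |ξ| * 1 ≤ |ξ| * A := by gcongr
            have h7 : (G.natDegree + N) * Real.log β ≤ A * Real.log β := by
              apply mul_le_mul_of_nonneg_right _ hlog.le
              rw [hA]; linarith
            rw [hD]
            nlinarith
    have herr : ∀ n, |((s ^ n * b n : ℤ) : ℝ) - lam * β ^ n| ≤ F := by
      intro n
      have h1 : ((s ^ n * b n : ℤ) : ℝ) - lam * β ^ n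
          = (s : ℝ) ^ n * (c (N + n) - ξ * g / m * α ^ (N + n)) := by
        rw [hlam, pow_add α, hpow n]
        push_cast
        linear_combination (- (ξ * g / m * α ^ N * β ^ n)) * (hss n).symm
      rw [h1, abs_mul, habs, one_mul]
      exact hact _ (by omega)
    have hME : D * A * F ^ 2 ≤ c₀ := by
      have h1 := hF2.trans (min_le_left _ _)
      rw [le_div_iff₀ hD0] at h1
      linarith
    obtain ⟨P, hP, hPb⟩ := hbase lam F (D * A) (fun n => s ^ n * b n)
      (by rw [hD]; nlinarith [abs_nonneg ξ]) hlamexp herr hME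
    refine ⟨P.comp (C s * X) * G, mul_ne_zero (comp_ne_zero_of_sign P hP.ne_zero s hs) hG, ?_⟩
    intro n hn
    obtain ⟨r, rfl⟩ := Nat.exists_eq_add_of_le hn
    have h1 := act_twist P s hs b hPb r
    rw [act_mul]
    have h2 : act (P.comp (C s * X)) (act G a) (N + r)
        = (m : ℤ) * act (P.comp (C s * X)) b r := by
      rw [act_apply, act_apply, Finset.mul_sum]
      apply Finset.sum_congr rfl
      intro i _
      rw [hc (N + r + i) (by omega)]
      simp only [hb]
      rw [← add_assoc]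
      ring
    rw [h2, h1, mul_zero]
  refine ⟨?_, hex⟩
  -- integrality
  obtain ⟨P, hP0, hPa⟩ := hex
  have hβint : PisotOrSalem β := by
    refine ps_of_rec β (ξ * α ^ N) E hα (mul_ne_zero hξ (pow_ne_zero _ ?_))
      (fun n => s ^ n * a (N + n)) ?_ ?_
    · intro h0
      rw [hβ, h0, abs_zero] at hα
      linarith
    · intro n
      have h1 : ((s ^ n * a (N + n) : ℤ) : ℝ) - ξ * α ^ N * β ^ n
          = (s : ℝ) ^ n * (a (N + n) - ξ * α ^ (N + n)) := by
        rw [pow_add α, hpow n]
        push_cast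
        linear_combination (- (ξ * α ^ N * β ^ n)) * (hss n).symm
      rw [h1, abs_mul, habs, one_mul]
      exact hE _ (by omega)
    · refine ⟨(P.comp (C s * X)).map (Int.castRingHom ℚ),
        (Polynomial.map_ne_zero_iff (RingHom.injective_int _)).mpr
          (comp_ne_zero_of_sign P hP0 s hs), Eventually.of_forall fun n => ?_⟩
      rw [act_castZQ]
      have h1 : act (P.comp (C s * X)) (fun n => s ^ n * a (N + n)) n = 0 := by
        apply act_twist P s hs
        intro r
        have h2 : (fun n => s ^ n * (fun n => s ^ n * a (N + n)) n) = fun n => a (N + n) := by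
          funext n
          have h3 : s ^ n * s ^ n = 1 := by exact_mod_cast hss n
          simp only
          rw [← mul_assoc, h3, one_mul]
        rw [h2]
        have h3 := hPa (N + r) (by omega)
        rw [act_apply] at h3 ⊢
        rw [← h3]
        apply Finset.sum_congr rfl
        intro i _
        rw [add_assoc]
      rw [h1, Int.cast_zero]
  exact ps_of_abs α hβint

end Pool.Agent.HDV
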