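import Mathlib
import Pool.Prelude.Def_F_52c619d0
import Pool.Agent.HDV.Mod

/-!
# Linear recurrences modulo one integer and Hardy's question

Let `α` be real, `|α| > 1`, `ξ ≠ 0`, and let `a n` be integers with `|a n - ξ α ^ n| ≤ E` for
`n ≥ N`. If `(a n)` satisfies, for `n ≥ N`, a linear recurrence modulo one integer `m` which is
large compared with the coefficients and the order of the recurrence, then `(a n)` satisfies an
exact linear recurrence, and `|α|` is a Pisot or a Salem number.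

Idea of the proof. Let `G` be the polynomial of the recurrence modulo `m`. Then
`(G a) n / m` is an integer sequence near `(ξ G(α) / m) α ^ n`, with errors at most
`len G * E / m`; Pisot's theorem in the uniform form `Har.rigid` applies.
-/

set_option autoImplicit false

namespace Pool.Agent.Results.MP_46933d_nt.ModularRecurrences

open Filter Topology Polynomial Pool.Agent.HDV

/-- the sequence `∑ i, G_i a (n + i)` -/
def rec (G : ℤ[X]) (a : ℕ → ℤ) (n : ℕ) : ℤ :=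
  ∑ i ∈ Finset.range (G.natDegree + 1), G.coeff i * a (n + i)

/-- the length of `G`, i.e. the sum of the absolute values of its coefficients -/
def length (G : ℤ[X]) : ℤ := ∑ i ∈ Finset.range (G.natDegree + 1), |G.coeff i|

theorem act_eq (G : ℤ[X]) (a : ℕ → ℤ) (n : ℕ) : Har.act G a n = rec G a n :=
  Har.act_apply G a n

theorem lifting (α ξ : ℝ) (hα : 1 < |α|) (hξ : ξ ≠ 0) :
    ∃ κ : ℝ, 0 < κ ∧ ∀ (a : ℕ → ℤ) (E : ℝ) (N : ℕ),
      (∀ n, N ≤ n → |(a n : ℝ) - ξ * α ^ n| ≤ E) →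
      ((∃ P : ℤ[X], P ≠ 0 ∧ ∀ n, N ≤ n → rec P a n = 0) ↔
        ∃ (m : ℕ) (G : ℤ[X]), 1 ≤ m ∧ G ≠ 0 ∧ length G ≤ m ∧
          (length G : ℝ) ^ 2 * E ^ 2 * (G.natDegree + N + 1) ≤ κ * m ^ 2 ∧
          ∀ n, N ≤ n → (m : ℤ) ∣ rec G a n) ∧
      ((∃ P : ℤ[X], P ≠ 0 ∧ ∀ n, N ≤ n → rec P a n = 0) → PisotOrSalem α) := by
  obtain ⟨κ, hκ, h⟩ := lift_core α ξ hα hξ
  refine ⟨κ, hκ, fun a E N hE => ?_⟩
  have hfwd : (∃ P : ℤ[X], P ≠ 0 ∧ ∀ n, N ≤ n → rec P a n = 0) →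
        ∃ (m : ℕ) (G : ℤ[X]), 1 ≤ m ∧ G ≠ 0 ∧ length G ≤ m ∧
          (length G : ℝ) ^ 2 * E ^ 2 * (G.natDegree + N + 1) ≤ κ * m ^ 2 ∧
          ∀ n, N ≤ n → (m : ℤ) ∣ rec G a n := by
    rintro ⟨P, hP, hPa⟩
    set L : ℝ := (length P : ℝ) ^ 2 * E ^ 2 * (P.natDegree + N + 1) with hL
    obtain ⟨m, hm⟩ := exists_nat_ge (L / κ + length P + 1)
    have hlen : (0 : ℝ) ≤ length P := by
      have := len_pos P hP
      have h1 : (1 : ℝ) ≤ length P := by exact_mod_cast this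
      linarith
    have hL0 : 0 ≤ L / κ := by positivity
    have hm1 : (1 : ℝ) ≤ m := by linarith
    refine ⟨m, P, by exact_mod_cast hm1, hP, ?_, ?_, fun n hn => by rw [hPa n hn]; exact dvd_zero _⟩
    · have : (length P : ℝ) ≤ m := by linarith
      exact_mod_cast this
    · have h1 : L ≤ κ * m := by
        have h2 : L / κ ≤ m := by linarith
        rw [div_le_iff₀ hκ] at h2
        linarith
      rw [← hL]
      have h3 : κ * (m : ℝ) ≤ κ * m ^ 2 := by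
        apply mul_le_mul_of_nonneg_left _ hκ.le
        nlinarith
      linarith
  have hbwd : (∃ (m : ℕ) (G : ℤ[X]), 1 ≤ m ∧ G ≠ 0 ∧ length G ≤ m ∧
          (length G : ℝ) ^ 2 * E ^ 2 * (G.natDegree + N + 1) ≤ κ * m ^ 2 ∧
          ∀ n, N ≤ n → (m : ℤ) ∣ rec G a n) →
      PisotOrSalem α ∧ ∃ P : ℤ[X], P ≠ 0 ∧ ∀ n, N ≤ n → rec P a n = 0 := by
    rintro ⟨m, G, hm, hG, hGm, hsm, hdvd⟩
    obtain ⟨h1, P, hP, hPa⟩ := h a E N m G hm hG hGm hE
      (fun n hn => by rw [act_eq]; exact hdvd n hn) hsm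
    exact ⟨h1, P, hP, fun n hn => by rw [← act_eq]; exact hPa n hn⟩
  exact ⟨⟨hfwd, fun h' => (hbwd h').2⟩, fun h' => (hbwd (hfwd h')).1⟩

theorem rec_X_pow_sub_one (T : ℕ) (a : ℕ → ℤ) (n : ℕ) :
    rec (X ^ T - 1) a n = a (n + T) - a n := by
  rw [← act_eq, Har.act_sub, Pi.sub_apply, Har.act_X_pow, Har.act_one]

theorem length_X_pow_sub_one (T : ℕ) (hT : 1 ≤ T) : length (X ^ T - 1 : ℤ[X]) = 2 := by
  unfold length
  have hd : (X ^ T - 1 : ℤ[X]).natDegree = T := natDegree_X_pow_sub_C (R := ℤ) (r := 1)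
  rw [hd, Finset.sum_range_succ, Finset.sum_eq_single_of_mem 0 (Finset.mem_range.mpr (by omega))]
  · have h1 : (X ^ T - 1 : ℤ[X]).coeff 0 = -1 := by
      rw [coeff_sub, coeff_X_pow, if_neg (by omega), coeff_one, if_pos rfl]; norm_num
    have h2 : (X ^ T - 1 : ℤ[X]).coeff T = 1 := by
      rw [coeff_sub, coeff_X_pow, if_pos rfl, coeff_one, if_neg (by omega)]; norm_num
    rw [h1, h2]
    norm_num
  · intro i hi hi0
    have hiT : i < T := Finset.mem_range.mp hi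
    rw [coeff_sub, coeff_X_pow, if_neg (by omega), coeff_one, if_neg hi0]
    norm_num

theorem periods (α ξ K : ℝ) (hα : 1 < |α|) (hξ : ξ ≠ 0)
    (h0 : Tendsto (fun n : ℕ => distToNearestInt (ξ * α ^ n)) atTop (𝓝 0))
    (h : ∃ᶠ m : ℕ in atTop, ∃ T N : ℕ, 1 ≤ T ∧ (T + N : ℝ) ≤ K * m ^ 2 ∧
      ∀ n, N ≤ n → (m : ℤ) ∣ round (ξ * α ^ (n + T)) - round (ξ * α ^ n)) : PisotOrSalem α := by
  obtain ⟨κ, hκ, hlift⟩ := lift_core α ξ hα hξ
  set a : ℕ → ℤ := fun n => round (ξ * α ^ n) with ha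
  set K' : ℝ := |K| + 1 with hK'
  have hK0 : 0 < K' := by positivity
  set η : ℝ := Real.sqrt (κ / (8 * K')) with hη
  have hη0 : 0 < η := Real.sqrt_pos.mpr (by positivity)
  have hη2 : 4 * η ^ 2 * (2 * K') = κ := by
    rw [hη, Real.sq_sqrt (by positivity)]
    field_simp
    ring
  obtain ⟨N₀, hN₀⟩ := eventually_atTop.mp (h0.eventually (gt_mem_nhds hη0))
  have hlarge : ∀ᶠ m : ℕ in atTop, (N₀ : ℝ) + 1 ≤ K' * m ^ 2 ∧ 2 ≤ m := by
    have h1 : Tendsto (fun m : ℕ => K' * (m : ℝ) ^ 2) atTop atTop :=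
      ((tendsto_pow_atTop two_ne_zero).comp tendsto_natCast_atTop_atTop).const_mul_atTop hK0
    exact (h1.eventually_ge_atTop _).and (eventually_ge_atTop 2)
  obtain ⟨m, ⟨T, N, hT, hTN, hper⟩, hm1, hm2⟩ := (h.and_eventually hlarge).exists
  refine (hlift a η (max N N₀) m (X ^ T - 1) (by omega) ?_ ?_ ?_ ?_ ?_).1
  · exact X_pow_sub_C_ne_zero (by omega) (1 : ℤ)
  · have h1 : len (X ^ T - 1) = 2 := length_X_pow_sub_one T hT
    rw [h1]
    exact_mod_cast hm2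
  · intro n hn
    have h1 := (hN₀ n (le_trans (le_max_right _ _) hn)).le
    unfold distToNearestInt at h1
    rw [abs_sub_comm] at h1
    exact h1
  · intro n hn
    rw [act_eq, rec_X_pow_sub_one T]
    exact hper n (le_trans (le_max_left _ _) hn)
  · have h1 : len (X ^ T - 1) = 2 := length_X_pow_sub_one T hT
    have hd : (X ^ T - 1 : ℤ[X]).natDegree = T := natDegree_X_pow_sub_C (R := ℤ) (r := 1)
    rw [h1, hd, ← hη2]
    have h2 : ((max N N₀ : ℕ) : ℝ) ≤ N + N₀ := by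
      exact_mod_cast max_le (by omega) (by omega)
    have h3 : (T + N : ℝ) ≤ K' * m ^ 2 := by
      refine hTN.trans ?_
      have h4 : K ≤ K' := by
        have := le_abs_self K
        linarith
      gcongr
    have h5 : (T : ℝ) + (max N N₀ : ℕ) + 1 ≤ 2 * K' * m ^ 2 := by
      have : (T : ℝ) + (max N N₀ : ℕ) + 1 ≤ (T + N : ℝ) + (N₀ + 1) := by linarith
      linarith
    have h6 : (0 : ℝ) ≤ 4 * η ^ 2 := by positivity
    calc ((2 : ℤ) : ℝ) ^ 2 * η ^ 2 * ((T : ℝ) + (max N N₀ : ℕ) + 1)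
        = 4 * η ^ 2 * ((T : ℝ) + (max N N₀ : ℕ) + 1) := by norm_num
      _ ≤ 4 * η ^ 2 * (2 * K' * m ^ 2) := by gcongr
      _ = 4 * η ^ 2 * (2 * K') * m ^ 2 := by ring

/-- **Theorem.** -/
theorem result :
    (∀ (α ξ : ℝ), 1 < |α| → ξ ≠ 0 → ∃ κ : ℝ, 0 < κ ∧ ∀ (a : ℕ → ℤ) (E : ℝ) (N : ℕ),
      (∀ n, N ≤ n → |(a n : ℝ) - ξ * α ^ n| ≤ E) →
      ((∃ P : ℤ[X], P ≠ 0 ∧ ∀ n, N ≤ n → rec P a n = 0) ↔
        ∃ (m : ℕ) (G : ℤ[X]), 1 ≤ m ∧ G ≠ 0 ∧ length G ≤ m ∧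
          (length G : ℝ) ^ 2 * E ^ 2 * (G.natDegree + N + 1) ≤ κ * m ^ 2 ∧
          ∀ n, N ≤ n → (m : ℤ) ∣ rec G a n) ∧
      ((∃ P : ℤ[X], P ≠ 0 ∧ ∀ n, N ≤ n → rec P a n = 0) → PisotOrSalem α)) ∧
    (∀ (α ξ K : ℝ), 1 < |α| → ξ ≠ 0 →
      Tendsto (fun n : ℕ => distToNearestInt (ξ * α ^ n)) atTop (𝓝 0) →
      (∃ᶠ m : ℕ in atTop, ∃ T N : ℕ, 1 ≤ T ∧ (T + N : ℝ) ≤ K * m ^ 2 ∧
        ∀ n, N ≤ n → (m : ℤ) ∣ round (ξ * α ^ (n + T)) - round (ξ * α ^ n)) →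
      PisotOrSalem α) :=
  ⟨fun α ξ h1 h2 => lifting α ξ h1 h2, fun α ξ K h1 h2 h3 h4 => periods α ξ K h1 h2 h3 h4⟩

end Pool.Agent.Results.MP_46933d_nt.ModularRecurrences
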