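import Mathlib

/-!
Reduction to `α > 1` by a sign.
-/

set_option autoImplicit false

namespace Pool.Agent.HDV

/-- the sign trick: `α = σ * |α|` with `σ = 1` or `σ = -1` -/
theorem exists_sign (α : ℝ) : ∃ s : ℤ, (s = 1 ∨ s = -1) ∧ α = s * |α| := by
  rcases abs_choice α with h | h
  · exact ⟨1, Or.inl rfl, by rw [h]; simp⟩
  · exact ⟨-1, Or.inr rfl, by rw [h]; simp⟩

theorem sign_pow (s : ℤ) (hs : s = 1 ∨ s = -1) (n : ℕ) : (s : ℝ) ^ n * (s : ℝ) ^ n = 1 := by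
  rw [← mul_pow]
  rcases hs with h | h <;> rw [h] <;> norm_num

theorem abs_sign_pow (s : ℤ) (hs : s = 1 ∨ s = -1) (n : ℕ) : |(s : ℝ) ^ n| = 1 := by
  rw [abs_pow]
  rcases hs with h | h <;> rw [h] <;> norm_num

end Pool.Agent.HDV
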